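import Pool.Agent.Helper90.TS.ColLo
import Pool.Agent.Helper74.TS.ColLow

/-!
# The column: from the polynomial inequalities to `ColR` and `ColI`
-/

set_option autoImplicit false

namespace Pool.Agent.Helper90.TS

open Pool.Agent.Helper84.TS Pool.Agent.Helper36.TS
open Pool.Agent.Helper78.TS (Row Cval ColR ColI Gives Hts Tot)

/-- **The generic column in real variables.** -/
theorem colR_of_col {ne na nb ka kb K La Lb Lab W de da db : ℝ}
    (H : Pool.Agent.Helper83.TS.Col (ne - ka - kb) de na da nb db K La Lb Lab W) :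
    ColR ne na nb ka kb K La Lb Lab W de da db :=
  colR_of_low H (Pool.Agent.Helper74.TS.low_of_col H)

variable {A : Fin 4 → Fin 4 → Option (Fin 4 → ℝ)} {P : Fin 4 → Fin 4 → ℝ}

/-- **The generic column**, with at most one far cell in this column. -/
theorem column (hB : Base A P) {m e a b : Fin 4}
    (hO : ∀ x y F G, x ≠ m → y ≠ m → A x m = some F → A y m = some G → x = y)
    (hn : [m, e, a, b].Nodup) (hl : Low P m e) {ne na nb ka kb K La Lb Lab W : ℝ}
    (H : Pool.Agent.Helper83.TS.Col (ne - ka - kb) (P e e - 1) na (P a a - 1) nb (P b b - 1)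
      K La Lb Lab W) : ColI A P m e a b ne na nb ka kb K La Lb Lab W :=
  Pool.Agent.Helper78.TS.colR_of hB hO hn hl (colR_of_col H)

/-- `Col` gives the column statements (`hC` of the theorems `caseTxxxx_of`) -/
theorem gives_col : Gives (fun ne na nb ka kb K La Lb Lab W de da db =>
    Pool.Agent.Helper83.TS.Col (ne - ka - kb) de na da nb db K La Lb Lab W) :=
  fun A _ hB hO m _ _ _ hn hl _ _ _ _ _ _ _ _ _ _ hC =>
    column (A := A) hB (fun x y F G => hO m x y F G) hn hl hC

end Pool.Agent.Helper90.TS
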