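import Pool.Agent.Helper36.TS.FrameG

/-!
# Far cells and far-like main cells in one form

A cell `v` of the class `i` is seen from a column `m ≠ i`: `w = 2 + v m` (the entry is `2 - w`),
`d = v i - 1`, `al = v y + d` the cap for the class `x`, `be = v x + d` the cap for the class `y`.
Far cells have `w < 1`; a main cell whose entry in the column `m` is at least `1/2` (or `≥ 0`)
behaves like a far cell with `1 ≤ w ≤ 3/2` (or `≤ 2`): the volume is the same polynomial minus
`(1 - d) (w - 1)²`, and the relation to the cells of the other classes is the same.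
-/

set_option autoImplicit false

namespace Pool.Agent.Helper90.TS

open Pool.Agent.Helper84.TS Pool.Agent.Helper36.TS

/-- the data of a cell seen from a column -/
structure Wk (f w d al be : ℝ) : Prop where
  w0 : 0 < w
  w2 : w ≤ 2
  d0 : 0 ≤ d
  d1 : d ≤ 1
  al1 : al ≤ 1
  be1 : be ≤ 1
  sum : al + be = 1 - w + d
  al0 : d - w ≤ al
  be0 : d - w ≤ be
  vol : f = w * (1 - al) * (1 - be) - w ^ 3 / 3
    + ((max (d - al) 0) ^ 3 + (max (d - be) 0) ^ 3) / 3 - (1 - d) * (max (w - 1) 0) ^ 2

theorem Wk.swap {f w d al be : ℝ} (h : Wk f w d al be) : Wk f w d be al := by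
  obtain ⟨h1, h2, h3, h4, h5, h6, h7, h8, h9, h10⟩ := h
  refine ⟨h1, h2, h3, h4, h6, h5, by linarith, h9, h8, ?_⟩
  rw [h10]
  ring

/-- the volume is at most the polynomial of a far cell -/
theorem Wk.vol_le {f w d al be : ℝ} (h : Wk f w d al be) :
    f ≤ w * (1 - al) * (1 - be) - w ^ 3 / 3
      + ((max (d - al) 0) ^ 3 + (max (d - be) 0) ^ 3) / 3 := by
  have := mul_nonneg (by linarith [h.d1] : 0 ≤ 1 - d) (sq_nonneg (max (w - 1) 0))
  linarith [h.vol]

/-- the data of a far cell -/
theorem wk_of_farC {f w d al be ui ux uy di dx dy sx' sy : ℝ}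
    (F : FarC f w d al be ui ux uy di dx dy sx' sy) : Wk f w d al be := by
  refine ⟨F.w0, by linarith [F.w1], F.d0, F.d1.le, F.al1.le, F.be1.le, F.sum, F.al0.le, F.be0.le,
    ?_⟩
  rw [F.vol, max_eq_right (by linarith [F.w1] : w - 1 ≤ 0)]
  ring

/-- **A far cell.** -/
theorem wk_far {i m x y : Fin 4} {v : Fin 4 → ℝ} (hv : IsCell i v) (hn : [i, m, x, y].Nodup)
    (hf : 1 < -v m) : Wk (fcl i v) (2 + v m) (v i - 1) (v y + (v i - 1)) (v x + (v i - 1)) := by
  obtain ⟨b1, b2, b3, b4, b5, b6, b7, b8, b9⟩ := far_bounds hv hn hf.le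
  refine ⟨b1, by linarith, b3, b4.le, b5.le, b6.le, b7, b8.le, b9.le, ?_⟩
  rw [far_formula hv hn hf.le, max_eq_right (by linarith : 2 + v m - 1 ≤ 0),
    show v i - 1 - (v y + (v i - 1)) = -v y by ring,
    show v i - 1 - (v x + (v i - 1)) = -v x by ring]
  ring

/-- **A main cell** with a nonnegative entry in the column `m`. -/
theorem wk_main {i m x y : Fin 4} {v : Fin 4 → ℝ} (hv : IsCell i v) (hn : [i, m, x, y].Nodup)
    (hm : ∀ z, z ≠ i → -v z ≤ 1) (h0 : 0 ≤ -v m) :
    Wk (fcl i v) (2 + v m) (v i - 1) (v y + (v i - 1)) (v x + (v i - 1)) := by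
  obtain ⟨e1, e2, e3, e4, e5⟩ := cell_lin hv hn
  obtain ⟨n1, n2, n3⟩ := nodup_ne hn
  have m1 := hm m n1
  have m2 := hm x n2
  have m3 := hm y n3
  refine ⟨by linarith, by linarith, by linarith, by linarith, by linarith, by linarith,
    by linarith, by linarith, by linarith, ?_⟩
  rw [near_formula hv hn m1 (by linarith) m2 m3, max_eq_left (by linarith : 0 ≤ 2 + v m - 1),
    show v i - 1 - (v y + (v i - 1)) = -v y by ring,
    show v i - 1 - (v x + (v i - 1)) = -v x by ring]
  ring

/-! ### Relations with other cells -/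

/-- **The cap relation** of a cell `v` of the class `i` and any cell `z` of another class `x`, in
the column `m` (kind A / kind B); `2 - w = -v m`. -/
theorem wk_cap {i m x y : Fin 4} {v z : Fin 4 → ℝ} (hv : IsCell i v) (hz : IsCell x z)
    (hn : [i, m, x, y].Nodup) (hs : Sep v z) :
    min (-z m) (2 - (2 + v m)) ≤ (v y + (v i - 1)) + (z x - 1) ∨
      min (-z m) (2 - (2 + v m)) + -z y ≤ (v i - 1) + (z x - 1) := by
  have hn' : [i, x, m, y].Nodup := by
    clear * - hn; revert hn; revert i m x y; decide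
  have h1 := (sep_min hv hz hn').1 hs
  rw [show 2 - (2 + v m) = -v m by ring, min_comm (-z m) (-v m)]
  rcases le_total (-v y) (-z y) with h2 | h2
  · rw [min_eq_left h2] at h1
    left
    linarith
  · rw [min_eq_right h2] at h1
    right
    linarith

/-- the cap relation if the entry of the other cell is at most the one of `v` -/
theorem wk_cap_le {i m x y : Fin 4} {v z : Fin 4 → ℝ} (hv : IsCell i v) (hz : IsCell x z)
    (hn : [i, m, x, y].Nodup) (hs : Sep v z) (hle : -z m ≤ -v m) :
    -z m ≤ (v y + (v i - 1)) + (z x - 1) ∨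
      (-z m + -z y ≤ (v i - 1) + (z x - 1) ∧ 1 - (v i - 1) ≤ -z i) := by
  have hnx : [x, i, m, y].Nodup := by
    clear * - hn; revert hn; revert i m x y; decide
  have h4 := (cell_lin hz hnx).1
  have h := wk_cap hv hz hn hs
  rw [show 2 - (2 + v m) = -v m by ring, min_eq_left hle] at h
  rcases h with h | h
  · exact Or.inl h
  · exact Or.inr ⟨h, by linarith⟩

/-- the cap relation if the entry of the other cell is at least the one of `v` -/
theorem wk_cap_ge {i m x y : Fin 4} {v z : Fin 4 → ℝ} (hv : IsCell i v) (hz : IsCell x z)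
    (hn : [i, m, x, y].Nodup) (hs : Sep v z) (hle : -v m ≤ -z m) :
    2 - (2 + v m) ≤ (v y + (v i - 1)) + (z x - 1) ∨
      2 - (2 + v m) + -z y ≤ (v i - 1) + (z x - 1) := by
  have h := wk_cap hv hz hn hs
  rwa [show 2 - (2 + v m) = -v m by ring, min_eq_right hle,
    show -v m = 2 - (2 + v m) by ring] at h

/-- two cells of different classes `i`, `x` seen from the column `m` -/
theorem wk_two {i m x y : Fin 4} {v z : Fin 4 → ℝ} (hv : IsCell i v) (hz : IsCell x z)
    (hn : [i, m, x, y].Nodup) (hs : Sep v z) :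
    min (2 - (2 + v m)) (2 - (2 + z m)) ≤ max (v y) (z y) + (v i - 1) + (z x - 1) := by
  have hn' : [i, x, m, y].Nodup := by
    clear * - hn; revert hn; revert i m x y; decide
  have h1 := (sep_min hv hz hn').1 hs
  rw [min_neg_neg (v y) (z y)] at h1
  rw [show 2 - (2 + v m) = -v m by ring, show 2 - (2 + z m) = -z m by ring]
  linarith

/-! ### The cells of a family -/

section

variable {A : Fin 4 → Fin 4 → Option (Fin 4 → ℝ)} {P : Fin 4 → Fin 4 → ℝ}

/-- the cells of a family with different names are separated -/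
theorem sep_of (h : OF A) {i j x n : Fin 4} {v z : Fin 4 → ℝ} (hv : A i j = some v)
    (hz : A x n = some z) (hne : i ≠ x) : Sep v z :=
  h.sep i j x n v z hv hz fun e => hne (by rw [Prod.mk.injEq] at e; exact e.1)

/-- **a cell `A i j` of a family seen from the column `m`**: the far cell of this column
(`j = m`), or the main cell (`j = i`) with a nonnegative entry -/
theorem wk_fam (h : OF A) {i j m x y : Fin 4} {v : Fin 4 → ℝ} (hv : A i j = some v)
    (hn : [i, m, x, y].Nodup) (hc : j = m ∨ (j = i ∧ 0 ≤ -v m)) :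
    Wk (fcl i v) (2 + v m) (v i - 1) (v y + (v i - 1)) (v x + (v i - 1)) := by
  have hmi : m ≠ i := (nodup_ne hn).1
  rcases hc with rfl | ⟨rfl, h0⟩
  · exact wk_far (h.cell _ _ v hv) hn (h.far _ _ v hmi hv)
  · exact wk_main (h.cell _ _ v hv) hn (h.main _ v hv) h0

/-- **the cap relation of a cell `A i j` and the main cell of another class `x`** in the column
`m`: kind A, or kind B (`q^x_i ≥ 1 - d_i`, if the entry of `P x` is the smaller one) -/
theorem cap_fam (h : OF A) (hP : ∀ i, A i i = some (P i)) {i j m x y : Fin 4} {v : Fin 4 → ℝ}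
    (hv : A i j = some v) (hn : [i, m, x, y].Nodup) :
    (-P x m ≤ -v m ∧ (-P x m ≤ (v y + (v i - 1)) + (P x x - 1) ∨
        (-P x m + -P x y ≤ (v i - 1) + (P x x - 1) ∧ 1 - (v i - 1) ≤ -P x i))) ∨
      (-v m ≤ -P x m ∧ (2 - (2 + v m) ≤ (v y + (v i - 1)) + (P x x - 1) ∨
        2 - (2 + v m) + -P x y ≤ (v i - 1) + (P x x - 1))) := by
  have hix : i ≠ x := by
    simp only [List.nodup_cons, List.mem_cons, List.not_mem_nil, or_false, not_or] at hn
    exact hn.1.2.1
  have hs := sep_of h hv (hP x) hix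
  have hcv := h.cell i j v hv
  have hcx := h.cell x x (P x) (hP x)
  rcases le_total (-P x m) (-v m) with hle | hle
  · exact Or.inl ⟨hle, wk_cap_le hcv hcx hn hs hle⟩
  · exact Or.inr ⟨hle, wk_cap_ge hcv hcx hn hs hle⟩

end

/-! ### An entry of at least one half -/

/-- the main cell of a class with a high main (`d ≥ 3/5`) has an entry at least `8/15` -/
theorem high_entry {i m x y : Fin 4} {v : Fin 4 → ℝ} (hv : IsCell i v) (hn : [i, m, x, y].Nodup)
    (hd : 3 / 5 ≤ v i - 1) : 8 / 15 ≤ -v m ∨ 8 / 15 ≤ -v x ∨ 8 / 15 ≤ -v y := by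
  have h := (cell_lin hv hn).1
  by_contra hcon
  simp only [not_or, not_le] at hcon
  obtain ⟨h1, h2, h3⟩ := hcon
  linarith

/-- kind B forces an entry of at least one half: `q^x_i ≥ 1 - d`, `d ≤ 1/2` -/
theorem kindB_entry {d q : ℝ} (hd : d ≤ 1 / 2) (hq : 1 - d ≤ q) : 1 / 2 ≤ q := by linarith

/-- the two other entries of the main cell of a class with a far cell in the column `m` are large
(`R3`): `q_x, q_y ≥ w` -/
theorem main_entries {i m x y : Fin 4} {v : Fin 4 → ℝ} {w d' : ℝ} (hv : IsCell i v)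
    (hn : [i, m, x, y].Nodup) (hm : ∀ z, z ≠ i → -v z ≤ 1) (hd' : 0 ≤ d')
    (ho : w ≤ -(-v m) + max ((v i - 1) - d') 0) : w ≤ -v x ∧ w ≤ -v y := by
  obtain ⟨e1, e2, e3, e4, e5⟩ := cell_lin hv hn
  obtain ⟨n1, n2, n3⟩ := nodup_ne hn
  have m2 := hm x n2
  have m3 := hm y n3
  have : max ((v i - 1) - d') 0 ≤ v i - 1 := max_le (by linarith) (by linarith)
  constructor <;> linarith

end Pool.Agent.Helper90.TS
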