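import Pool.Agent.Helper90.TS.NECf
import Pool.Agent.Helper95.TS.CellRound

/-!
# `TwoLowNE` in units `1 / 20`

`v r m = 20 (u r m - d r)`, `e r = 40 d r` (so `∑ v = 20 - e`); `w`, `D`, `X i m r` times `20`. An absent
cell has `(w, X, X, D) = (-20, 0, 0, 40)`, so most relations hold without the condition `present`.
-/

set_option autoImplicit false

namespace Pool.Agent.Helper90.TS

open Pool.Agent.Helper84.TS Pool.Agent.Helper23.TS Pool.Agent.Helper36.TS Pool.Agent.Helper44.TS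
  Pool.Agent.Helper74.TS Pool.Agent.Helper59.TS

/-- the real data in units `1 / 20` -/
structure Cu where
  e : Fin 4 → ℝ
  v : Fin 4 → Fin 4 → ℝ
  w : Fin 4 → Fin 4 → ℝ
  D : Fin 4 → Fin 4 → ℝ
  X : Fin 4 → Fin 4 → Fin 4 → ℝ
  VR : Fin 4 → ℝ
  f : Fin 4 → Fin 4 → ℝ
  mf : Fin 4 → ℝ

/-- the data of a present cell, `X`, `Y` the two components -/
structure PrU (f w X Y D : ℝ) : Prop where
  w0 : 0 < w
  w1 : w ≤ 20
  X0 : 0 < X
  Y0 : 0 < Y
  D0 : 0 ≤ D
  D1 : D < 20
  sum : X + Y = 20 + w - D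
  val : f = vl (w / 20) (X / 20) (Y / 20)

/-- the data of an absent cell -/
structure AbU (f w X Y D : ℝ) : Prop where
  w : w = -20
  X : X = 0
  Y : Y = 0
  D : D = 40
  val : f = 0

/-- the volume in the form of helper95 -/
theorem PrU.val24 {f w X Y D : ℝ} (h : PrU f w X Y D) :
    24000 * f = Pool.Agent.Helper95.TS.cellG w X (X + D) := by
  have e1 : Y = 20 + w - (X + D) := by linarith [h.sum]
  have m1 : max (w / 20 - X / 20) 0 = max (w - X) 0 / 20 := by
    rcases le_total (w - X) 0 with h | h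
    · rw [max_eq_right h, max_eq_right (by linarith)]
      norm_num
    · rw [max_eq_left h, max_eq_left (by linarith)]
      ring
  have m2 : max (w / 20 - Y / 20) 0 = max (X + D - 20) 0 / 20 := by
    rw [e1]
    rcases le_total (X + D - 20) 0 with h | h
    · rw [max_eq_right h, max_eq_right (by linarith)]
      norm_num
    · rw [max_eq_left h, max_eq_left (by linarith)]
      ring
  rw [h.val, vl, m1, m2, e1, Pool.Agent.Helper95.TS.cellG]
  ring

/-- kind B of the cell `(i; m)` on the row `r`, `z` the fourth index -/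
structure Cu.KB (c : Cu) (i m r z : Fin 4) : Prop where
  lo : 20 + c.v r m + c.v r z - c.v r i ≤ 2 * c.D i m
  vi : 20 - c.X i m r < c.v r m
  pr : c.D i m < 20

/-- **The relations of a configuration**, units `1 / 20`. -/
structure Cu.Ok (c : Cu) : Prop where
  e0 : ∀ r, (r = 2 ∨ r = 3) → 0 ≤ c.e r
  es : c.e 2 + c.e 3 ≤ 226 / 25
  lo : ∀ r m, (r = 2 ∨ r = 3) → m ≠ r → -20 ≤ c.v r m
  hi : ∀ r m, (r = 2 ∨ r = 3) → m ≠ r → c.v r m + c.e r / 2 ≤ 20
  vs : ∀ r j k l, (r = 2 ∨ r = 3) → [r, j, k, l].Nodup → c.v r j + c.v r k + c.v r l = 20 - c.e r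
  gr : ∀ r j k l, (r = 2 ∨ r = 3) → [r, j, k, l].Nodup →
    Pool.Agent.Helper65.TS.GR (c.VR r) (c.e r / 40) (c.v r j / 20 + c.e r / 40)
      (c.v r k / 20 + c.e r / 40) (c.v r l / 20 + c.e r / 40)
  -- the cells: present or absent
  cell : ∀ i m r z, (i = 0 ∨ i = 1) → [i, m, r, z].Nodup →
    PrU (c.f i m) (c.w i m) (c.X i m r) (c.X i m z) (c.D i m) ∨
      AbU (c.f i m) (c.w i m) (c.X i m r) (c.X i m z) (c.D i m)
  /-- the high main cell -/
  main : ∀ i j k l, (i = 0 ∨ i = 1) → [i, j, k, l].Nodup → c.mf i = 0 ∨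
    ∃ δ p q s, 3 / 5 ≤ δ ∧ δ < 1 ∧ (-(1 - δ) ≤ p ∧ p ≤ 1) ∧ (-(1 - δ) ≤ q ∧ q ≤ 1) ∧
      (-(1 - δ) ≤ s ∧ s ≤ 1) ∧ p + q + s = 1 + δ ∧ c.mf i = ff δ p q s ∧
      (c.w i j = -20 ∨ c.w i j ≤ 20 * (δ - p)) ∧ (c.w i k = -20 ∨ c.w i k ≤ 20 * (δ - q)) ∧
      (c.w i l = -20 ∨ c.w i l ≤ 20 * (δ - s))
  -- the pair of the rows: P1, P2, P3, P4
  pair : (c.v 3 0 + c.e 3 / 2 ≤ c.v 2 0 + c.e 2 / 2 ∧ c.v 2 1 + c.e 2 / 2 ≤ c.v 3 1 + c.e 3 / 2 ∧
      c.v 3 0 + c.v 2 1 ≤ 0) ∨
    (c.v 2 0 + c.e 2 / 2 ≤ c.v 3 0 + c.e 3 / 2 ∧ c.v 3 1 + c.e 3 / 2 ≤ c.v 2 1 + c.e 2 / 2 ∧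
      c.v 2 0 + c.v 3 1 ≤ 0) ∨
    (c.v 3 0 + c.e 3 / 2 ≤ c.v 2 0 + c.e 2 / 2 ∧ c.v 3 1 + c.e 3 / 2 ≤ c.v 2 1 + c.e 2 / 2 ∧
      c.v 3 0 + c.v 3 1 ≤ (c.e 2 - c.e 3) / 2) ∨
    (c.v 2 0 + c.e 2 / 2 ≤ c.v 3 0 + c.e 3 / 2 ∧ c.v 2 1 + c.e 2 / 2 ≤ c.v 3 1 + c.e 3 / 2 ∧
      c.v 2 0 + c.v 2 1 ≤ (c.e 3 - c.e 2) / 2)
  -- a cell and a row
  kd : ∀ i m r z, (i = 0 ∨ i = 1) → (r = 2 ∨ r = 3) → [i, m, r, z].Nodup →
    c.v r m ≤ 20 - c.X i m r ∨ c.KB i m r z
  f1 : ∀ i m r z, (i = 0 ∨ i = 1) → (r = 2 ∨ r = 3) → (z = 2 ∨ z = 3) → [i, m, r, z].Nodup →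
    c.KB i m r z → ¬ c.KB i m z r
  f2 : ∀ i m r z, (i = 0 ∨ i = 1) → (r = 2 ∨ r = 3) → [i, m, r, z].Nodup →
    c.KB i m r z → ¬ c.KB i z r m
  -- two cells of a class
  sp : ∀ i m n r, (i = 0 ∨ i = 1) → [i, m, n, r].Nodup →
    c.X i m r ≤ 20 - c.w i n ∨ c.X i n r ≤ 20 - c.w i m
  -- the two weak classes
  cr : ∀ x y, (x = 2 ∧ y = 3) ∨ (x = 3 ∧ y = 2) → c.X 0 x 1 + c.X 1 y 0 ≤ 40
  /-- conflict, short form -/
  cs : ∀ x, (x = 2 ∨ x = 3) → c.X 0 x 1 ≤ c.D 1 x ∨ c.X 1 x 0 ≤ c.D 0 x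
  /-- conflict, exact form -/
  cf : ∀ x, (x = 2 ∨ x = 3) → c.w 0 x = -20 ∨ c.w 1 x = -20 ∨
    (c.w 0 x ≤ c.w 1 x ∧ c.X 0 x 1 ≤ c.D 1 x - 20 + c.w 1 x) ∨
    (c.w 0 x ≤ c.w 1 x ∧ c.X 1 x 0 ≤ c.D 0 x - 20 + c.w 1 x) ∨
    (c.w 1 x ≤ c.w 0 x ∧ c.X 0 x 1 ≤ c.D 1 x - 20 + c.w 0 x) ∨
    (c.w 1 x ≤ c.w 0 x ∧ c.X 1 x 0 ≤ c.D 0 x - 20 + c.w 0 x)

/-- the value of a configuration -/
noncomputable def Cu.val (c : Cu) : ℝ :=
  c.VR 2 + c.VR 3 + (c.mf 0 + c.f 0 1 + c.f 0 2 + c.f 0 3) + (c.mf 1 + c.f 1 0 + c.f 1 2 + c.f 1 3)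

/-- the witness `(0; 1)` -/
structure Cu.WT (c : Cu) : Prop where
  kb : c.KB 0 1 2 3
  dC : c.D 0 1 < 11
  w0 : 0 < c.w 0 1

/-- the witness `(0; 3)` -/
structure Cu.WO (c : Cu) : Prop where
  kb : c.KB 0 3 2 1
  dC : c.D 0 3 < 11
  w0 : 0 < c.w 0 3

open Classical in
/-- change of the units -/
noncomputable def cuOf (c : Cf) : Cu where
  e r := 40 * c.d r
  v r m := 20 * (c.u r m - c.d r)
  w i m := if c.pr i m then 20 * c.w i m else -20
  D i m := if c.pr i m then 20 * c.D i m else 40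
  X i m r := if c.pr i m then 20 * c.X i m r else 0
  VR := c.VR
  f := c.f
  mf := c.mf

section

variable {c : Cf} {i m r z : Fin 4}

theorem cuOf_w (h : c.pr i m) : (cuOf c).w i m = 20 * c.w i m := if_pos h
theorem cuOf_D (h : c.pr i m) : (cuOf c).D i m = 20 * c.D i m := if_pos h
theorem cuOf_X (h : c.pr i m) : (cuOf c).X i m r = 20 * c.X i m r := if_pos h
theorem cuOf_w' (h : ¬ c.pr i m) : (cuOf c).w i m = -20 := if_neg h
theorem cuOf_D' (h : ¬ c.pr i m) : (cuOf c).D i m = 40 := if_neg h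
theorem cuOf_X' (h : ¬ c.pr i m) : (cuOf c).X i m r = 0 := if_neg h

theorem row_perm : ∀ {i m r z : Fin 4}, [i, m, r, z].Nodup → [r, i, m, z].Nodup := by
  decide

theorem cuOf_KB (h : c.Ok) (hr : r = 2 ∨ r = 3) (hn : [i, m, r, z].Nodup) (hi : i = 0 ∨ i = 1) :
    (cuOf c).KB i m r z ↔ c.KB i m r z := by
  have hs := h.us r i m z hr (row_perm hn)
  constructor
  · rintro ⟨h1, h2, h3⟩
    have hp : c.pr i m := by
      by_contra hp
      rw [cuOf_D' hp] at h3
      norm_num at h3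
    rw [cuOf_D hp] at h1
    rw [cuOf_X hp] at h2
    simp only [cuOf] at h1 h2
    exact ⟨hp, by linarith, by linarith, by linarith⟩
  · rintro ⟨hp, h1, h2, h3⟩
    have k := h.fd i m r z hi hn hp
    refine ⟨?_, ?_, ?_⟩
    · rw [cuOf_D hp]
      simp only [cuOf]
      linarith
    · rw [cuOf_X hp]
      simp only [cuOf]
      linarith
    · rw [cuOf_D hp]
      linarith [k.d1]

theorem other : ∀ i m : Fin 4, m ≠ i → ∃ r z, [i, m, r, z].Nodup := by
  decide

end

theorem cuOf_ok {c : Cf} (h : c.Ok) : (cuOf c).Ok := by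
  constructor
  · intro r hr
    have := h.d0 r hr
    simp only [cuOf]
    linarith
  · have := h.ds
    simp only [cuOf]
    linarith
  · intro r m hr hm
    have := h.lo r m hr hm
    simp only [cuOf]
    linarith
  · intro r m hr hm
    have := h.hi r m hr hm
    simp only [cuOf]
    linarith
  · intro r j k l hr hn
    have := h.us r j k l hr hn
    simp only [cuOf]
    linarith
  · intro r j k l hr hn
    have := h.gr r j k l hr hn
    simp only [cuOf]
    rw [show 40 * c.d r / 40 = c.d r by ring, show 20 * (c.u r j - c.d r) / 20 + c.d r = c.u r j by ring,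
      show 20 * (c.u r k - c.d r) / 20 + c.d r = c.u r k by ring,
      show 20 * (c.u r l - c.d r) / 20 + c.d r = c.u r l by ring]
    exact this
  · intro i m r z hi hn
    by_cases hp : c.pr i m
    · left
      have k := h.fd i m r z hi hn hp
      rw [cuOf_w hp, cuOf_X hp, cuOf_X hp, cuOf_D hp]
      refine ⟨by linarith [k.w0], by linarith [k.w1], by linarith [k.a0], by linarith [k.b0],
        by linarith [k.d0], by linarith [k.d1], by linarith [k.sum], ?_⟩
      rw [show 20 * c.w i m / 20 = c.w i m by ring, show 20 * c.X i m r / 20 = c.X i m r by ring,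
        show 20 * c.X i m z / 20 = c.X i m z by ring]
      exact k.vol
    · right
      have k := h.ab i m r hi hp
      exact ⟨cuOf_w' hp, cuOf_X' hp, cuOf_X' hp, cuOf_D' hp, k.1⟩
  · intro i j k l hi hn
    by_cases hp : c.mp i
    · right
      obtain ⟨h1, h2⟩ := h.mn i hi hp
      obtain ⟨h3, h4⟩ := h.mus i j k l hi hn hp
      have n := nodup_ne hn
      refine ⟨c.md i, c.mu i j, c.mu i k, c.mu i l, h1, h2, h.mlo i j hi n.1 hp,
        h.mlo i k hi n.2.1 hp, h.mlo i l hi n.2.2 hp, h3, h4, ?_, ?_, ?_⟩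
      · by_cases hq : c.pr i j
        · right
          have h5 := h.msat i j hi n.1 hp hq
          obtain ⟨r, z, hrz⟩ := other i j n.1
          have k5 := (h.fd i j r z hi hrz hq).d0
          have h6 : max (c.md i - c.D i j) 0 ≤ c.md i := max_le (by linarith) (by linarith)
          rw [cuOf_w hq]
          linarith
        · exact Or.inl (cuOf_w' hq)
      · by_cases hq : c.pr i k
        · right
          have h5 := h.msat i k hi n.2.1 hp hq
          obtain ⟨r, z, hrz⟩ := other i k n.2.1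
          have k5 := (h.fd i k r z hi hrz hq).d0
          have h6 : max (c.md i - c.D i k) 0 ≤ c.md i := max_le (by linarith) (by linarith)
          rw [cuOf_w hq]
          linarith
        · exact Or.inl (cuOf_w' hq)
      · by_cases hq : c.pr i l
        · right
          have h5 := h.msat i l hi n.2.2 hp hq
          obtain ⟨r, z, hrz⟩ := other i l n.2.2
          have k5 := (h.fd i l r z hi hrz hq).d0
          have h6 : max (c.md i - c.D i l) 0 ≤ c.md i := max_le (by linarith) (by linarith)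
          rw [cuOf_w hq]
          linarith
        · exact Or.inl (cuOf_w' hq)
    · exact Or.inl (h.mab i hi hp)
  · have := h.pair
    simp only [cuOf]
    rcases this with h1 | h1 | h1 | h1
    · exact Or.inl ⟨by linarith, by linarith, by linarith⟩
    · exact Or.inr (Or.inl ⟨by linarith, by linarith, by linarith⟩)
    · exact Or.inr (Or.inr (Or.inl ⟨by linarith, by linarith, by linarith⟩))
    · exact Or.inr (Or.inr (Or.inr ⟨by linarith, by linarith, by linarith⟩))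
  · intro i m r z hi hr hn
    rcases h.kd i m r z hi hr hn with k | k
    · left
      by_cases hp : c.pr i m
      · rw [cuOf_X hp]
        simp only [cuOf]
        linarith
      · have hmr : m ≠ r := by
          clear * - hn; revert hn; revert i m r z; decide
        have h1 := h.hi r m hr hmr
        have h0 := h.d0 r hr
        rw [cuOf_X' hp]
        simp only [cuOf]
        linarith
    · exact Or.inr ((cuOf_KB h hr hn hi).2 k)
  · intro i m r z hi hr hz hn h1 h2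
    exact h.f1 i m r z hi hr hz hn ((cuOf_KB h hr hn hi).1 h1)
      ((cuOf_KB h hz (perm_last hn) hi).1 h2)
  · intro i m r z hi hr hn h1 h2
    have hn2 : [i, z, r, m].Nodup := by
      clear * - hn; revert hn; revert i m r z; decide
    exact h.f2 i m r z hi hr hn ((cuOf_KB h hr hn hi).1 h1) ((cuOf_KB h hr hn2 hi).1 h2)
  · intro i m n r hi hn
    have hn2 : [i, m, r, n].Nodup := perm_last hn
    have hn3 : [i, n, r, m].Nodup := by
      clear * - hn; revert hn; revert i m n r; decide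
    by_cases hp : c.pr i m
    · have k := h.fd i m r n hi hn2 hp
      by_cases hq : c.pr i n
      · rw [cuOf_X hp, cuOf_X hq, cuOf_w hp, cuOf_w hq]
        rcases h.sp i m n r hi hn hp hq with h1 | h1
        · left; linarith
        · right; linarith
      · left
        rw [cuOf_X hp, cuOf_w' hq]
        linarith [k.al, k.w1, k.d0]
    · right
      rw [cuOf_w' hp]
      by_cases hq : c.pr i n
      · have k := h.fd i n r m hi hn3 hq
        rw [cuOf_X hq]
        linarith [k.al, k.w1, k.d0]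
      · rw [cuOf_X' hq]
        norm_num
  · intro x y hxy
    have b0 : ∀ a b, (a = 2 ∨ a = 3) → b = 1 → (cuOf c).X 0 a b ≤ 40 := by
      rintro a b ha rfl
      by_cases hp : c.pr 0 a
      · rw [cuOf_X hp]
        rcases ha with rfl | rfl
        · have k := h.fd 0 2 1 3 (Or.inl rfl) (by decide) hp
          linarith [k.al, k.w1, k.d0]
        · have k := h.fd 0 3 1 2 (Or.inl rfl) (by decide) hp
          linarith [k.al, k.w1, k.d0]
      · rw [cuOf_X' hp]
        norm_num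
    have b1 : ∀ a b, (a = 2 ∨ a = 3) → b = 0 → (cuOf c).X 1 a b ≤ 40 := by
      rintro a b ha rfl
      by_cases hp : c.pr 1 a
      · rw [cuOf_X hp]
        rcases ha with rfl | rfl
        · have k := h.fd 1 2 0 3 (Or.inr rfl) (by decide) hp
          linarith [k.al, k.w1, k.d0]
        · have k := h.fd 1 3 0 2 (Or.inr rfl) (by decide) hp
          linarith [k.al, k.w1, k.d0]
      · rw [cuOf_X' hp]
        norm_num
    have hx : x = 2 ∨ x = 3 := hxy.imp (fun h => h.1) fun h => h.1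
    have hy : y = 2 ∨ y = 3 := by
      rcases hxy with h | h
      · exact Or.inr h.2
      · exact Or.inl h.2
    by_cases hp : c.pr 0 x
    · by_cases hq : c.pr 1 y
      · rw [cuOf_X hp, cuOf_X hq]
        linarith [h.cr x y hxy hp hq]
      · rw [cuOf_X' hq]
        linarith [b0 x 1 hx rfl]
    · rw [cuOf_X' hp]
      linarith [b1 y 0 hy rfl]
  · intro x hx
    by_cases hp : c.pr 0 x
    · by_cases hq : c.pr 1 x
      · rw [cuOf_X hp, cuOf_X hq, cuOf_D hp, cuOf_D hq]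
        have w0 : c.w 0 x ≤ 1 := by
          rcases hx with rfl | rfl
          · exact (h.fd 0 2 1 3 (Or.inl rfl) (by decide) hp).w1
          · exact (h.fd 0 3 1 2 (Or.inl rfl) (by decide) hp).w1
        have w1 : c.w 1 x ≤ 1 := by
          rcases hx with rfl | rfl
          · exact (h.fd 1 2 0 3 (Or.inr rfl) (by decide) hq).w1
          · exact (h.fd 1 3 0 2 (Or.inr rfl) (by decide) hq).w1
        rcases h.cf x hx hp hq with ⟨-, h1⟩ | ⟨-, h1⟩ | ⟨-, h1⟩ | ⟨-, h1⟩
        · left; linarith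
        · right; linarith
        · left; linarith
        · right; linarith
      · left
        rw [cuOf_X hp, cuOf_D' hq]
        rcases hx with rfl | rfl
        · have k := h.fd 0 2 1 3 (Or.inl rfl) (by decide) hp
          linarith [k.al, k.w1, k.d0]
        · have k := h.fd 0 3 1 2 (Or.inl rfl) (by decide) hp
          linarith [k.al, k.w1, k.d0]
    · right
      rw [cuOf_D' hp]
      by_cases hq : c.pr 1 x
      · rw [cuOf_X hq]
        rcases hx with rfl | rfl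
        · have k := h.fd 1 2 0 3 (Or.inr rfl) (by decide) hq
          linarith [k.al, k.w1, k.d0]
        · have k := h.fd 1 3 0 2 (Or.inr rfl) (by decide) hq
          linarith [k.al, k.w1, k.d0]
      · rw [cuOf_X' hq]
        norm_num
  · intro x hx
    by_cases hp : c.pr 0 x
    · by_cases hq : c.pr 1 x
      · rw [cuOf_X hp, cuOf_X hq, cuOf_D hp, cuOf_D hq, cuOf_w hp, cuOf_w hq]
        rcases h.cf x hx hp hq with ⟨h0, h1⟩ | ⟨h0, h1⟩ | ⟨h0, h1⟩ | ⟨h0, h1⟩
        · exact Or.inr (Or.inr (Or.inl ⟨by linarith, by linarith⟩))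
        · exact Or.inr (Or.inr (Or.inr (Or.inl ⟨by linarith, by linarith⟩)))
        · exact Or.inr (Or.inr (Or.inr (Or.inr (Or.inl ⟨by linarith, by linarith⟩))))
        · exact Or.inr (Or.inr (Or.inr (Or.inr (Or.inr ⟨by linarith, by linarith⟩))))
      · exact Or.inr (Or.inl (cuOf_w' hq))
    · exact Or.inl (cuOf_w' hp)

theorem cuOf_WT {c : Cf} (h : c.Ok) (k : c.WT) : (cuOf c).WT := by
  refine ⟨(cuOf_KB h (Or.inl rfl) (by decide) (Or.inl rfl)).2 k.kb, ?_, ?_⟩
  · rw [cuOf_D k.kb.pr]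
    linarith [k.dC]
  · rw [cuOf_w k.kb.pr]
    linarith [(h.fd 0 1 2 3 (Or.inl rfl) (by decide) k.kb.pr).w0]

theorem cuOf_WO {c : Cf} (h : c.Ok) (k : c.WO) : (cuOf c).WO := by
  refine ⟨(cuOf_KB h (Or.inl rfl) (by decide) (Or.inl rfl)).2 k.kb, ?_, ?_⟩
  · rw [cuOf_D k.kb.pr]
    linarith [k.dC]
  · rw [cuOf_w k.kb.pr]
    linarith [(h.fd 0 3 2 1 (Or.inl rfl) (by decide) k.kb.pr).w0]

/-- **`TwoLowNE` from the bound for configurations in units `1 / 20`.** -/
theorem twoLowNE_of_cu (t : ∀ c : Cu, c.Ok → c.WT → c.val ≤ 613 / 200)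
    (o : ∀ c : Cu, c.Ok → c.WO → c.val ≤ 613 / 200) : TwoLowNE :=
  twoLowNE_of_cf (fun c h k => t (cuOf c) (cuOf_ok h) (cuOf_WT h k))
    fun c h k => o (cuOf c) (cuOf_ok h) (cuOf_WO h k)

end Pool.Agent.Helper90.TS
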