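import Pool.Agent.Helper74.TS.TwoRow
import Pool.Agent.Helper74.TS.GoodOr
import Pool.Agent.Helper44.TS.ThreeR2

/-!
# Two weak classes `a`, `b` (kind `R2`) and two good classes `c`, `l`: the frame of the rows `c`, `l`

`nu = 43/50`, `kappa = 27/50`. Column bounds: `T` columns (`a`, `b`): `T0 + 11/20 (d_c + d_l) + G`; `O` columns
(`c`, `l`): `Z0 + 3/5 d + G`, `d` the height of the only row of the column.
-/

set_option autoImplicit false

namespace Pool.Agent.Helper90.TS

open Pool.Agent.Helper84.TS Pool.Agent.Helper23.TS Pool.Agent.Helper36.TS Pool.Agent.Helper44.TS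
  Pool.Agent.Helper74.TS

variable {A : Fin 4 → Fin 4 → Option (Fin 4 → ℝ)} {P : Fin 4 → Fin 4 → ℝ}

/-- the sum of the four classes in the frame of the rows `c`, `l`, any multipliers -/
theorem n2_sum (h : OF A) {a b c l : Fin 4} (hn : [a, b, c, l].Nodup) (hc : A c c = some (P c))
    (hl : A l l = some (P l)) {nc nl k : ℝ} (hk : 0 ≤ k) :
    ∑ i, VV A i ≤ rowc nc (P c c - 1) + rowc nl (P l l - 1) + k * ((P c c - 1) + (P l l - 1))
      + (col2 A P nc nl k a c l + fo b (A b a)) + (col2 A P nc nl k b c l + fo a (A a b))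
      + (col1 A P nl c l + fo a (A a c) + fo b (A b c))
      + (col1 A P nc l c + fo a (A a l) + fo b (A b l)) + fo a (A a a) + fo b (A b b) := by
  have h1 := two_rows (nc := nc) (nl := nl) h hn hc hl hk
  have nb : [b, a, c, l].Nodup := swap_nodup hn
  have h2 := Pool.Agent.Helper44.TS.VV_eq (A := A) hn
  have h3 := Pool.Agent.Helper44.TS.VV_eq (A := A) nb
  rw [sum4 hn]
  linarith

/-- **The frame**, constants of helper62. -/
theorem n2_frame (h : OF A) {a b c l : Fin 4} (hn : [a, b, c, l].Nodup) (hc : A c c = some (P c))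
    (hl : A l l = some (P l)) (hdc : 0 ≤ P c c - 1 ∧ P c c - 1 ≤ 6 / 25)
    (hdl : 0 ≤ P l l - 1 ∧ P l l - 1 ≤ 6 / 25) {Ga Gb Gc Gl : ℝ}
    (ta : col2 A P (43 / 50) (43 / 50) (27 / 50) a c l + fo b (A b a) ≤
      421 / 1000 + 11 / 20 * ((P c c - 1) + (P l l - 1)) + Ga)
    (tb : col2 A P (43 / 50) (43 / 50) (27 / 50) b c l + fo a (A a b) ≤
      421 / 1000 + 11 / 20 * ((P c c - 1) + (P l l - 1)) + Gb)
    (oc : col1 A P (43 / 50) c l + fo a (A a c) + fo b (A b c) ≤ 1849 / 5000 + 3 / 5 * (P l l - 1) + Gc)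
    (ol : col1 A P (43 / 50) l c + fo a (A a l) + fo b (A b l) ≤ 1849 / 5000 + 3 / 5 * (P c c - 1) + Gl)
    (hG : fo a (A a a) + fo b (A b b) + Ga + Gb + Gc + Gl ≤ 87 / 100) : ∑ i, VV A i ≤ 613 / 200 := by
  have h1 := n2_sum (nc := 43 / 50) (nl := 43 / 50) (k := 27 / 50) h hn hc hl (by norm_num)
  refine h1.trans ?_
  have q : ∀ d : ℝ, 0 ≤ d → d ≤ 6 / 25 → rowc (43 / 50) d + 27 / 50 * d + 11 / 10 * d + 3 / 5 * d ≤
      7 / 6 - 43 / 50 := by
    intro d h0 h2
    unfold rowc
    nlinarith [mul_nonneg h0 (sub_nonneg.2 h2), mul_nonneg h0 (mul_nonneg h0 h0)]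
  have qc := q _ hdc.1 hdc.2
  have ql := q _ hdl.1 hdl.2
  linarith

/-- the value of a good class is at most `1` -/
theorem good_le_one (h : OF A) {i : Fin 4} (hg : Good A i) : VV A i ≤ 1 := by
  obtain ⟨M, hM, hd, hw⟩ := id hg
  have d0 : 0 ≤ M i - 1 := by
    obtain ⟨j, k, l, hn⟩ := exists_rest3 i
    have := cell_lin (h.cell i i M hM) hn
    linarith [this.2.1, this.2.2.1]
  rcases good_or h hg hM with h1 | h1
  · nlinarith
  · linarith

/-- small heights of the good classes -/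
theorem n2_low (h : OF A) {a b c l : Fin 4} (hn : [a, b, c, l].Nodup) (ha : Helper84.TS.R2 A a)
    (hb : Helper84.TS.R2 A b)
    (gc : Good A c) (gl : Good A l)
    (H : ∀ P : Fin 4 → Fin 4 → ℝ, A c c = some (P c) → A l l = some (P l) → 0 ≤ P c c - 1 → 0 ≤ P l l - 1 →
      (P c c - 1) + (P l l - 1) ≤ 113 / 500 → (∀ j F, j ≠ c → A c j = some F → 2 + F j ≤ 13 / 20) →
      (∀ j F, j ≠ l → A l j = some F → 2 + F j ≤ 13 / 20) → ∑ i, VV A i ≤ 613 / 200) :
    ∑ i, VV A i ≤ 613 / 200 := by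
  obtain ⟨M, hM, hd, hw⟩ := id gc
  obtain ⟨N, hN, hd', hw'⟩ := id gl
  have hcl : c ≠ l := by
    clear * - hn; revert hn; revert a b c l; decide
  have d0 : ∀ (i : Fin 4) (M : Fin 4 → ℝ), A i i = some M → 0 ≤ M i - 1 := by
    intro i M hM
    obtain ⟨j, k, l, hn⟩ := exists_rest3 i
    have := cell_lin (h.cell i i M hM) hn
    linarith [this.2.1, this.2.2.1]
  have dc := d0 c M hM
  have dl := d0 l N hN
  have va := R2_le h ha
  have vb := R2_le h hb
  have vc1 := good_le_one h gc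
  have vl1 := good_le_one h gl
  have e := sum4 hn (fun i => VV A i)
  rcases good_or h gc hM with vc | vc
  · rcases good_or h gl hN with vl | vl
    · by_cases hs : (M c - 1) + (N l - 1) ≤ 113 / 500
      · refine H (fun i => if i = c then M else N) (by simp [hM]) (by simp [hN, hcl.symm]) ?_ ?_ ?_ hw hw'
        · simpa using dc
        · simpa [hcl.symm] using dl
        · simpa [hcl.symm] using hs
      · rw [e]
        have hs' : 113 / 500 < (M c - 1) + (N l - 1) := not_le.1 hs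
        generalize M c - 1 = x at *
        generalize N l - 1 = y at *
        -- `1 - 5/3 x + 2/3 x^2 + 1 - 5/3 y + 2/3 y^2 <= 2 - 5/3 s + 2/3 s^2`
        nlinarith [mul_nonneg dc dl]
    · rw [e]
      linarith
  · rw [e]
    linarith

end Pool.Agent.Helper90.TS
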