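import Pool.Agent.Helper84.TS.Cases

/-!
# At most one of two classes has a far cell in a row column with a negative cap towards the other class
-/

set_option autoImplicit false

namespace Pool.Agent.Helper90.TS

open Pool.Agent.Helper84.TS Pool.Agent.Helper23.TS Pool.Agent.Helper36.TS

variable {A : Fin 4 → Fin 4 → Option (Fin 4 → ℝ)}

/-- the far cell `(a; c)` has a negative cap (for the class `b`) -/
theorem neg_cap {a b c l : Fin 4} {v : Fin 4 → ℝ} (hv : IsCell a v) (hn : [a, b, c, l].Nodup)
    (hf : 1 < -v c) (hneg : v l + (v a - 1) < 0) : v a - 1 < -v l ∧ -v b < 0 ∧ -v l < 1 := by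
  have hn' : [a, c, b, l].Nodup := by
    clear * - hn; revert hn; revert a b c l; decide
  obtain ⟨e1, e2, e3, e4, e5⟩ := cell_lin hv hn'
  refine ⟨by linarith, by linarith, ?_⟩
  linarith

/-- **Both bad is impossible**, different columns: `v = (a; c)`, `z = (b; l)`. -/
theorem not_both_bad (h : OF A) {a b c l : Fin 4} (hn : [a, b, c, l].Nodup) {v z : Fin 4 → ℝ}
    (hv : A a c = some v) (hz : A b l = some z) (h1 : v l + (v a - 1) < 0)
    (h2 : z c + (z b - 1) < 0) : False := by
  have hac : c ≠ a := by
    clear * - hn; revert hn; revert a b c l; decide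
  have hbl : l ≠ b := by
    clear * - hn; revert hn; revert a b c l; decide
  have hab : a ≠ b := by
    clear * - hn; revert hn; revert a b c l; decide
  have nb : [b, a, l, c].Nodup := by
    clear * - hn; revert hn; revert a b c l; decide
  have cv := h.cell a c v hv
  have cz := h.cell b l z hz
  obtain ⟨a1, a2, a3⟩ := neg_cap cv hn (h.far a c v hac hv) h1
  obtain ⟨b1, b2, b3⟩ := neg_cap cz nb (h.far b l z hbl hz) h2
  have hs : Sep v z := h.sep a c b l v z hv hz fun e => hab (by rw [Prod.mk.injEq] at e; exact e.1)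
  have h3 := (sep_min cv cz hn).1 hs
  have f1 := h.far a c v hac hv
  have f2 := h.far b l z hbl hz
  rw [min_eq_right (by linarith : -z c ≤ -v c), min_eq_left (by linarith : -v l ≤ -z l)] at h3
  linarith

/-- **Both bad is impossible**, the same column `c`. -/
theorem not_both_bad' (h : OF A) {a b c l : Fin 4} (hn : [a, b, c, l].Nodup) {v z : Fin 4 → ℝ}
    (hv : A a c = some v) (hz : A b c = some z) (h1 : v l + (v a - 1) < 0)
    (h2 : z l + (z b - 1) < 0) : False := by
  have hac : c ≠ a := by
    clear * - hn; revert hn; revert a b c l; decide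
  have hbc : c ≠ b := by
    clear * - hn; revert hn; revert a b c l; decide
  have hab : a ≠ b := by
    clear * - hn; revert hn; revert a b c l; decide
  have nb : [b, a, c, l].Nodup := swap_nodup hn
  have cv := h.cell a c v hv
  have cz := h.cell b c z hz
  obtain ⟨a1, a2, a3⟩ := neg_cap cv hn (h.far a c v hac hv) h1
  obtain ⟨b1, b2, b3⟩ := neg_cap cz nb (h.far b c z hbc hz) h2
  have hs : Sep v z := h.sep a c b c v z hv hz fun e => hab (by rw [Prod.mk.injEq] at e; exact e.1)
  have h3 := (sep_min cv cz hn).1 hs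
  have f1 := h.far a c v hac hv
  have f2 := h.far b c z hbc hz
  have m1 : 1 ≤ min (-v c) (-z c) := le_min f1.le f2.le
  rcases le_total (-v l) (-z l) with hle | hle
  · rw [min_eq_left hle] at h3
    linarith
  · rw [min_eq_right hle] at h3
    linarith

/-- a far cell of the class `a` in a row column (`c`, `l`) with a negative cap for the class `b` -/
def Bad (A : Fin 4 → Fin 4 → Option (Fin 4 → ℝ)) (a c l : Fin 4) : Prop :=
  (∃ v, A a c = some v ∧ v l + (v a - 1) < 0) ∨ (∃ v, A a l = some v ∧ v c + (v a - 1) < 0)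

/-- **At most one of the two classes is bad.** -/
theorem bad_excl (h : OF A) {a b c l : Fin 4} (hn : [a, b, c, l].Nodup) (ha : Bad A a c l) :
    ¬ Bad A b c l := by
  have hn' : [a, b, l, c].Nodup := by
    clear * - hn; revert hn; revert a b c l; decide
  rintro hb
  rcases ha with ⟨v, hv, h1⟩ | ⟨v, hv, h1⟩ <;> rcases hb with ⟨z, hz, h2⟩ | ⟨z, hz, h2⟩
  · exact not_both_bad' h hn hv hz h1 h2
  · exact not_both_bad h hn hv hz h1 h2
  · exact not_both_bad h hn' hv hz h1 h2
  · exact not_both_bad' h hn' hv hz h1 h2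

end Pool.Agent.Helper90.TS
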