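import Pool.Agent.Helper90.TS.N2Frame
import Pool.Agent.Helper90.TS.Bad
import Pool.Agent.Helper90.TS.FarLike

/-!
# Two weak classes `a`, `b` (kind `R2`), two good classes `c`, `l`, `S` empty: the assembly

The pieces (columns, class lemmas) are collected in the structure `Pieces`; from them
`two_low_empty`. A far cell `F = A i m` of a weak class is seen through `w = 2 + F m` and its two
components `A = 1 - cap`.

`T` cell `(i; i')`: `w = 2 + F i'`, components `1 - (F x + (F i - 1))`, `1 - (F y + (F i - 1))`.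
`O` cell `(i; x)`, row `y`: `w = 2 + F x`, `A = 1 - (F i' + (F i - 1))` (the cap of the row `y`),
`B = 1 - (F y + (F i - 1))` (the cap of the other weak class).
-/

set_option autoImplicit false

namespace Pool.Agent.Helper90.TS

open Pool.Agent.Helper84.TS Pool.Agent.Helper23.TS Pool.Agent.Helper36.TS Pool.Agent.Helper44.TS
  Pool.Agent.Helper74.TS

/-- the component of the cell `F` of the class `i` with the index `k` -/
def cmp (i k : Fin 4) (F : Fin 4 → ℝ) : ℝ := 1 - (F k + (F i - 1))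

/-- the rows `x`, `y` and the weak classes `i`, `j` -/
structure Rows (A : Fin 4 → Fin 4 → Option (Fin 4 → ℝ)) (P : Fin 4 → Fin 4 → ℝ) (i j x y : Fin 4) :
    Prop where
  of : OF A
  hn : [i, j, x, y].Nodup
  hx : A x x = some (P x)
  hy : A y y = some (P y)
  dx : 0 ≤ P x x - 1
  dy : 0 ≤ P y y - 1
  ds : (P x x - 1) + (P y y - 1) ≤ 113 / 500
  wx : ∀ m H, m ≠ x → A x m = some H → 2 + H m ≤ 13 / 20
  wy : ∀ m H, m ≠ y → A y m = some H → 2 + H m ≤ 13 / 20

/-- kind A of the cell `F = A i m` on the row `x` (the fourth index is `z`), if `d_F < 11/20` -/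
def KA (P : Fin 4 → Fin 4 → ℝ) (i m x z : Fin 4) (F : Fin 4 → ℝ) : Prop :=
  F i - 1 < 11 / 20 → -P x m ≤ (F z + (F i - 1)) + (P x x - 1)

/-- the status of an `O` cell `A i x` with the gain `g`: dropped (or absent), or admissible -/
def StO (OA OG : ℝ → ℝ → ℝ → ℝ → Prop) (A : Fin 4 → Fin 4 → Option (Fin 4 → ℝ)) (i j x y : Fin 4)
    (g : ℝ) : Prop :=
  g = 0 ∨ ∃ F, A i x = some F ∧ OA (2 + F x) (cmp i j F) (cmp i y F) g ∧
    (cmp i y F ≤ 1 → OG (2 + F x) (cmp i j F) (cmp i y F) g)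

/-- the status of a `T` cell `A i j` with the gain `g` -/
def StT (TA TG : ℝ → ℝ → ℝ → ℝ → Prop) (A : Fin 4 → Fin 4 → Option (Fin 4 → ℝ)) (i j x y : Fin 4)
    (g : ℝ) : Prop :=
  g = 0 ∨ ∃ F, A i j = some F ∧ TA (2 + F j) (cmp i x F) (cmp i y F) g ∧
    TG (2 + F j) (cmp i x F) (cmp i y F) g

/-- The class lemma with the predicates `T`, `O` and the bound `Γ`. -/
def Cls (T O : ℝ → ℝ → ℝ → ℝ → Prop) (Γ : ℝ) : Prop :=
  ∀ (A : Fin 4 → Fin 4 → Option (Fin 4 → ℝ)), OF A → ∀ i j x y : Fin 4, [i, j, x, y].Nodup →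
    Helper84.TS.R2 A i → ∀ gT g1 g2 : ℝ,
    (gT = 0 ∨ ∃ F, A i j = some F ∧ T (2 + F j) (cmp i x F) (cmp i y F) gT) →
    (g1 = 0 ∨ ∃ F, A i x = some F ∧ O (2 + F x) (cmp i j F) (cmp i y F) g1) →
    (g2 = 0 ∨ ∃ F, A i y = some F ∧ O (2 + F y) (cmp i j F) (cmp i x F) g2) →
    fo i (A i i) + gT + g1 + g2 ≤ Γ

/-- **The pieces.** -/
structure Pieces (TA TG OA OG : ℝ → ℝ → ℝ → ℝ → Prop) (Γa Γg : ℝ) : Prop where
  sum : Γa + Γg ≤ 87 / 100
  /-- the class lemma, any class -/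
  clsA : Cls TA OA Γa
  /-- the class lemma, good class -/
  clsG : Cls TG OG Γg
  /-- the `T` column `j` (class cell `A i j`), rows `x`, `y` -/
  colT0 : ∀ (A : Fin 4 → Fin 4 → Option (Fin 4 → ℝ)) (P : Fin 4 → Fin 4 → ℝ) (i j x y : Fin 4),
    Rows A P i j x y →
    col2 A P (43 / 50) (43 / 50) (27 / 50) j x y ≤
      421 / 1000 + 11 / 20 * ((P x x - 1) + (P y y - 1))
  colT1 : ∀ (A : Fin 4 → Fin 4 → Option (Fin 4 → ℝ)) (P : Fin 4 → Fin 4 → ℝ) (i j x y : Fin 4),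
    Rows A P i j x y → ∀ F, A i j = some F → KA P i j x y F → KA P i j y x F →
    ∃ g, TA (2 + F j) (cmp i x F) (cmp i y F) g ∧ TG (2 + F j) (cmp i x F) (cmp i y F) g ∧
      col2 A P (43 / 50) (43 / 50) (27 / 50) j x y + fcl i F ≤
        421 / 1000 + 11 / 20 * ((P x x - 1) + (P y y - 1)) + g
  /-- the `O` column `x` with the only row `y`, no cell of `i`, `j` -/
  colO0 : ∀ (A : Fin 4 → Fin 4 → Option (Fin 4 → ℝ)) (P : Fin 4 → Fin 4 → ℝ) (i j x y : Fin 4),
    Rows A P i j x y → col1 A P (43 / 50) x y ≤ 1849 / 5000 + 3 / 5 * (P y y - 1)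
  /-- one cell -/
  colO1 : ∀ (A : Fin 4 → Fin 4 → Option (Fin 4 → ℝ)) (P : Fin 4 → Fin 4 → ℝ) (i j x y : Fin 4),
    Rows A P i j x y → ∀ F, A i x = some F → KA P i x y j F →
    ∃ g, StO OA OG A i j x y g ∧
      col1 A P (43 / 50) x y + fcl i F ≤ 1849 / 5000 + 3 / 5 * (P y y - 1) + g
  /-- two cells -/
  colO2 : ∀ (A : Fin 4 → Fin 4 → Option (Fin 4 → ℝ)) (P : Fin 4 → Fin 4 → ℝ) (i j x y : Fin 4),
    Rows A P i j x y → ∀ F G, A i x = some F → A j x = some G → KA P i x y j F → KA P j x y i G →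
    ∃ gF gG, StO OA OG A i j x y gF ∧ StO OA OG A j i x y gG ∧
      col1 A P (43 / 50) x y + fcl i F + fcl j G ≤
        1849 / 5000 + 3 / 5 * (P y y - 1) + gF + gG

section

variable {TA TG OA OG : ℝ → ℝ → ℝ → ℝ → Prop} {Γa Γg : ℝ}
  {A : Fin 4 → Fin 4 → Option (Fin 4 → ℝ)} {P : Fin 4 → Fin 4 → ℝ}

theorem Rows.swap {i j x y : Fin 4} (R : Rows A P i j x y) : Rows A P j i x y :=
  ⟨R.of, swap_nodup R.hn, R.hx, R.hy, R.dx, R.dy, R.ds, R.wx, R.wy⟩

theorem Rows.flip {i j x y : Fin 4} (R : Rows A P i j x y) : Rows A P i j y x := by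
  have hn' : [i, j, y, x].Nodup := by
    have := R.hn
    clear * - this; revert this; revert i j x y; decide
  exact ⟨R.of, hn', R.hy, R.hx, R.dy, R.dx, by linarith [R.ds], R.wy, R.wx⟩

/-- the `T` column in one statement -/
theorem Pieces.T (p : Pieces TA TG OA OG Γa Γg) {i j x y : Fin 4} (R : Rows A P i j x y)
    (hk : ∀ F, A i j = some F → KA P i j x y F ∧ KA P i j y x F) :
    ∃ g, StT TA TG A i j x y g ∧ col2 A P (43 / 50) (43 / 50) (27 / 50) j x y + fo i (A i j) ≤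
      421 / 1000 + 11 / 20 * ((P x x - 1) + (P y y - 1)) + g := by
  rcases h : A i j with _ | F
  · refine ⟨0, Or.inl rfl, ?_⟩
    have := p.colT0 A P i j x y R
    simp only [fo]
    linarith
  · obtain ⟨k1, k2⟩ := hk F h
    obtain ⟨g, g1, g2, g3⟩ := p.colT1 A P i j x y R F h k1 k2
    refine ⟨g, Or.inr ⟨F, h, g1, g2⟩, ?_⟩
    simp only [fo]
    linarith

/-- the `O` column in one statement -/
theorem Pieces.O (p : Pieces TA TG OA OG Γa Γg) {i j x y : Fin 4} (R : Rows A P i j x y)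
    (hi : ∀ F, A i x = some F → KA P i x y j F) (hj : ∀ F, A j x = some F → KA P j x y i F) :
    ∃ gF gG, StO OA OG A i j x y gF ∧ StO OA OG A j i x y gG ∧
      col1 A P (43 / 50) x y + fo i (A i x) + fo j (A j x) ≤
        1849 / 5000 + 3 / 5 * (P y y - 1) + gF + gG := by
  rcases h1 : A i x with _ | F <;> rcases h2 : A j x with _ | G
  · refine ⟨0, 0, Or.inl rfl, Or.inl rfl, ?_⟩
    have := p.colO0 A P i j x y R
    simp only [fo]
    linarith
  · obtain ⟨g, g1, g2⟩ := p.colO1 A P j i x y R.swap G h2 (hj G h2)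
    refine ⟨0, g, Or.inl rfl, g1, ?_⟩
    simp only [fo]
    linarith
  · obtain ⟨g, g1, g2⟩ := p.colO1 A P i j x y R F h1 (hi F h1)
    refine ⟨g, 0, g1, Or.inl rfl, ?_⟩
    simp only [fo]
    linarith
  · obtain ⟨gF, gG, g1, g2, g3⟩ := p.colO2 A P i j x y R F G h1 h2 (hi F h1) (hj G h2)
    refine ⟨gF, gG, g1, g2, ?_⟩
    simp only [fo]
    linarith

/-- the class `i` in the role `any` -/
theorem Pieces.any (p : Pieces TA TG OA OG Γa Γg) (h : OF A) {i j x y : Fin 4}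
    (hn : [i, j, x, y].Nodup) (hR : Helper84.TS.R2 A i) {gT g1 g2 : ℝ} (sT : StT TA TG A i j x y gT)
    (s1 : StO OA OG A i j x y g1) (s2 : StO OA OG A i j y x g2) :
    fo i (A i i) + gT + g1 + g2 ≤ Γa := by
  refine p.clsA A h i j x y hn hR gT g1 g2 ?_ ?_ ?_
  · rcases sT with e | ⟨F, h1, h2, -⟩
    · exact Or.inl e
    · exact Or.inr ⟨F, h1, h2⟩
  · rcases s1 with e | ⟨F, h1, h2, -⟩
    · exact Or.inl e
    · exact Or.inr ⟨F, h1, h2⟩
  · rcases s2 with e | ⟨F, h1, h2, -⟩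
    · exact Or.inl e
    · exact Or.inr ⟨F, h1, h2⟩

/-- the class `i` in the role `good` -/
theorem Pieces.good (p : Pieces TA TG OA OG Γa Γg) (h : OF A) {i j x y : Fin 4}
    (hn : [i, j, x, y].Nodup) (hR : Helper84.TS.R2 A i) (hb : ¬ Bad A i x y) {gT g1 g2 : ℝ}
    (sT : StT TA TG A i j x y gT) (s1 : StO OA OG A i j x y g1) (s2 : StO OA OG A i j y x g2) :
    fo i (A i i) + gT + g1 + g2 ≤ Γg := by
  refine p.clsG A h i j x y hn hR gT g1 g2 ?_ ?_ ?_
  · rcases sT with e | ⟨F, h1, -, h3⟩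
    · exact Or.inl e
    · exact Or.inr ⟨F, h1, h3⟩
  · rcases s1 with e | ⟨F, h1, -, h3⟩
    · exact Or.inl e
    · refine Or.inr ⟨F, h1, h3 ?_⟩
      by_contra hcon
      refine hb (Or.inl ⟨F, h1, ?_⟩)
      unfold cmp at hcon
      linarith [not_le.1 hcon]
  · rcases s2 with e | ⟨F, h1, -, h3⟩
    · exact Or.inl e
    · refine Or.inr ⟨F, h1, h3 ?_⟩
      by_contra hcon
      refine hb (Or.inr ⟨F, h1, ?_⟩)
      unfold cmp at hcon
      linarith [not_le.1 hcon]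

/-- **The case `S` empty of two weak classes.** -/
theorem two_low_empty (p : Pieces TA TG OA OG Γa Γg) {a b c l : Fin 4} (R : Rows A P a b c l)
    (ha : Helper84.TS.R2 A a) (hb : Helper84.TS.R2 A b)
    (hS : ∀ i m x z F, [i, m, x, z].Nodup → (i = a ∨ i = b) → (x = c ∨ x = l) →
      A i m = some F → KA P i m x z F) : ∑ i, VV A i ≤ 613 / 200 := by
  have hn := R.hn
  have n1 : [a, b, c, l].Nodup ∧ [a, b, l, c].Nodup ∧ [b, a, c, l].Nodup ∧ [b, a, l, c].Nodup ∧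
      [a, c, l, b].Nodup ∧ [b, c, l, a].Nodup ∧ [a, l, c, b].Nodup ∧ [b, l, c, a].Nodup := by
    clear * - hn; revert hn; revert a b c l; decide
  obtain ⟨m1, m2, m3, m4, m5, m6, m7, m8⟩ := n1
  -- the columns
  obtain ⟨ga, sa, ta⟩ := p.T R.swap fun F hF =>
    ⟨hS b a c l F m3 (Or.inr rfl) (Or.inl rfl) hF, hS b a l c F m4 (Or.inr rfl) (Or.inr rfl) hF⟩
  obtain ⟨gb, sb, tb⟩ := p.T R fun F hF =>
    ⟨hS a b c l F m1 (Or.inl rfl) (Or.inl rfl) hF, hS a b l c F m2 (Or.inl rfl) (Or.inr rfl) hF⟩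
  obtain ⟨g1, g2, s1, s2, oc⟩ := p.O R
    (fun F hF => hS a c l b F m5 (Or.inl rfl) (Or.inr rfl) hF)
    (fun F hF => hS b c l a F m6 (Or.inr rfl) (Or.inr rfl) hF)
  obtain ⟨g3, g4, s3, s4, ol⟩ := p.O R.flip
    (fun F hF => hS a l c b F m7 (Or.inl rfl) (Or.inl rfl) hF)
    (fun F hF => hS b l c a F m8 (Or.inr rfl) (Or.inl rfl) hF)
  have hG : fo a (A a a) + fo b (A b b) + ga + gb + (g1 + g2) + (g3 + g4) ≤ 87 / 100 := by
    have hs := p.sum
    by_cases hbad : Bad A a c l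
    · have h1 := p.any R.of m1 ha sb s1 s3
      have h2 := p.good R.of m3 hb (bad_excl R.of hn hbad) sa s2 s4
      linarith
    · have h1 := p.good R.of m1 ha hbad sb s1 s3
      have h2 := p.any R.of m3 hb sa s2 s4
      linarith
  exact n2_frame R.of hn R.hx R.hy ⟨R.dx, by linarith [R.ds, R.dy]⟩ ⟨R.dy, by linarith [R.ds, R.dx]⟩
    ta tb (by linarith) (by linarith) hG

/-- the remaining case: some cell of a weak class with `d < 11/20` is not of kind A on a row -/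
def TwoLowNE : Prop := ∀ (A : Fin 4 → Fin 4 → Option (Fin 4 → ℝ)) (P : Fin 4 → Fin 4 → ℝ)
  (a b c l : Fin 4), Rows A P a b c l → Helper84.TS.R2 A a → Helper84.TS.R2 A b →
  ∀ (i m x z : Fin 4) (F : Fin 4 → ℝ), [i, m, x, z].Nodup → (i = a ∨ i = b) → (x = c ∨ x = l) →
  A i m = some F → F i - 1 < 11 / 20 → (F z + (F i - 1)) + (P x x - 1) < -P x m →
  1 - (F i - 1) ≤ -P x i → ∑ i, VV A i ≤ 613 / 200

/-- **`CaseTwoLow` from the pieces and the case `S` nonempty.** -/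
theorem caseTwoLow_of (p : Pieces TA TG OA OG Γa Γg) (hne : TwoLowNE) : CaseTwoLow := by
  intro A h a b c l hn ha hb gc gl
  refine n2_low h hn ha hb gc gl fun P hc hl dc dl ds wc wl => ?_
  have R : Rows A P a b c l := ⟨h, hn, hc, hl, dc, dl, ds, wc, wl⟩
  by_cases hS : ∀ i m x z F, [i, m, x, z].Nodup → (i = a ∨ i = b) → (x = c ∨ x = l) →
      A i m = some F → KA P i m x z F
  · exact two_low_empty p R ha hb hS
  · push Not at hS
    obtain ⟨i, m, x, z, F, n, hi, hx, hF, hk⟩ := hS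
    unfold KA at hk
    push Not at hk
    obtain ⟨k1, k2⟩ := hk
    have hxx : A x x = some (P x) := by
      rcases hx with rfl | rfl
      · exact hc
      · exact hl
    have hix : i ≠ x := (nodup_ne n).2.1.symm
    have hmi : m ≠ i := (nodup_ne n).1
    have hmx : m ≠ x := by
      clear * - n; revert n; revert i m x z; decide
    have hs := sep_of h hF hxx hix
    have f1 := h.far i m F hmi hF
    have hle : -P x m ≤ -F m := by
      have := h.main x (P x) hxx m hmx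
      linarith
    rcases wk_cap_le (h.cell i m F hF) (h.cell x x (P x) hxx) n hs hle with e | ⟨-, e⟩
    · exact absurd e (not_le.2 k2)
    · exact hne A P a b c l R ha hb i m x z F n hi hx hF k1 k2 e

end

end Pool.Agent.Helper90.TS
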