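import Pool.Agent.Helper78.TS.Asm
import Pool.Agent.Helper83.TS.Defs

/-!
# The column: no far cell, and the far cell of a class which is not the lowest one

In real variables: from the polynomial inequalities of `Helper83.TS.Defs` to the fields `none`, `fa`,
`fb` of `Helper78.TS.ColR`.
-/

set_option autoImplicit false

namespace Pool.Agent.Helper90.TS

open Pool.Agent.Helper36.TS Pool.Agent.Helper74.TS
open Pool.Agent.Helper78.TS (Row Cval ColR)
open Pool.Agent.Helper83.TS (st mj vm RI NP LA1 LA2 LB LC Lo Br)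

/-! ### Slots -/

theorem sx_le_mj {X d D u : ℝ} (hD : 0 ≤ D) (h1 : u ≤ 1) (hs : u ≤ D) :
    sx X d u ≤ mj X (1 - d) D (D - u) := by
  rw [sx_of_le h1, mj]
  have key : (max (-u) 0) ^ 3 ≤ u ^ 2 * (D - u) := by
    rcases le_total (-u) 0 with h | h
    · rw [max_eq_right h]
      have := mul_nonneg (sq_nonneg u) (sub_nonneg.2 hs)
      linarith
    · rw [max_eq_left h]
      have := mul_nonneg (sq_nonneg u) hD
      nlinarith
  have e : D - (D - u) = u := by ring
  rw [e]
  linarith

theorem sx_le_st {c d u : ℝ} (hc : 0 ≤ c) (hd : d ≤ 1) (hl : -(1 - d) ≤ u) (hu : u ≤ 1) :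
    sx c d u ≤ st c d (max u 0) :=
  Pool.Agent.Helper19.TS.sx_le_max hc hd hl hu

/-! ### Volumes -/

/-- the largest volume of a far cell -/
theorem vl_le_vm {w A B : ℝ} (hw : 0 ≤ w) (hw1 : w ≤ 1) (hA : 0 ≤ A) (hB : 0 ≤ B)
    (h1 : w ≤ A + B) (h2 : A + B ≤ 1 + w) : vl w A B ≤ vm w := by
  have key : ∀ X Y : ℝ, 0 ≤ X → X ≤ Y → X + Y = 1 + w → vl w X Y ≤ vm w := by
    intro X Y hX hXY hs
    unfold vl vm
    have hY : w ≤ Y := by linarith
    rw [max_eq_right (by linarith : w - Y ≤ 0)]
    have e : Y = 1 + w - X := by linarith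
    rcases le_total w X with h | h
    · rw [max_eq_right (by linarith : w - X ≤ 0), e]
      nlinarith [mul_nonneg hw (sq_nonneg (1 + w - 2 * X))]
    · rw [max_eq_left (by linarith : 0 ≤ w - X), e]
      obtain ⟨t, ht⟩ : ∃ t, t = w - X := ⟨_, rfl⟩
      have hX' : X = w - t := by linarith
      have t0 : 0 ≤ t := by linarith
      have tw : t ≤ w := by linarith
      rw [← ht, hX']
      have h3 : 0 ≤ w * (1 - w) * (1 + 4 * t - w) :=
        mul_nonneg (mul_nonneg hw (by linarith)) (by linarith)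
      have h4 : 0 ≤ t ^ 2 * (w - t) := mul_nonneg (sq_nonneg t) (by linarith)
      nlinarith [pow_nonneg t0 3]
  have h3 := vl_mono_r hw hA hB h1 (by linarith : B ≤ 1 + w - A)
  refine h3.trans ?_
  rcases le_total A (1 + w - A) with h | h
  · exact key A (1 + w - A) hA h (by ring)
  · rw [vl_comm]
    exact key (1 + w - A) A (by linarith) h (by ring)

/-- `B ≤ w`, `B ≤ A` -/
theorem vl_le_small {w A B : ℝ} (hB : 0 ≤ B) (h1 : w ≤ A + B)
    (hBA : B ≤ A) (hBw : B ≤ w) : vl w A B ≤ w * A * B - w ^ 2 * B / 3 := by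
  unfold vl
  rw [max_eq_left (by linarith : 0 ≤ w - B)]
  have hw : 0 ≤ w := hB.trans hBw
  set p := w - B with hp
  have p0 : 0 ≤ p := by linarith
  obtain ⟨q, hq⟩ : ∃ q, q = max (w - A) 0 := ⟨_, rfl⟩
  have q0 : 0 ≤ q := by rw [hq]; exact le_max_right _ _
  have qp : q ≤ p := by rw [hq]; exact max_le (by linarith) p0
  have pq : p + q ≤ w := by
    rw [hq]
    rcases le_total (w - A) 0 with h | h
    · rw [max_eq_right h]; linarith
    · rw [max_eq_left h]; linarith
  rw [← hq]
  have h3 : p ^ 3 + q ^ 3 ≤ p * (p + q) ^ 2 := by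
    have h4 : 0 ≤ q ^ 2 * (p - q) := mul_nonneg (sq_nonneg q) (by linarith)
    have h5 : 0 ≤ p * (p * q) := mul_nonneg p0 (mul_nonneg p0 q0)
    nlinarith
  have h6 : p * (p + q) ^ 2 ≤ p * w ^ 2 :=
    mul_le_mul_of_nonneg_left (pow_le_pow_left₀ (by linarith) pq 2) p0
  have h7 : p * w ^ 2 = w ^ 3 - w ^ 2 * B := by rw [hp]; ring
  linarith

theorem vl_le_large {w A B : ℝ} (hwA : w ≤ A) (hwB : w ≤ B) :
    vl w A B = w * A * B - w ^ 3 / 3 := by
  unfold vl
  rw [max_eq_right (by linarith : w - A ≤ 0), max_eq_right (by linarith : w - B ≤ 0)]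
  ring

/-- `B ≥ 1`, so `A ≤ w` -/
theorem vl_le_one {w A B : ℝ} (hw : 0 ≤ w) (hw1 : w ≤ 1) (hA : 0 ≤ A) (hB : 1 ≤ B)
    (h2 : A + B ≤ 1 + w) : vl w A B ≤ w * w - w ^ 3 / 3 := by
  have h3 := vl_mono_r (w := w) hw hA (by linarith : 0 ≤ B) (by linarith)
    (by linarith : B ≤ 1 + w - A)
  refine h3.trans ?_
  unfold vl
  have hAw : A ≤ w := by linarith
  rw [max_eq_left (by linarith : 0 ≤ w - A), max_eq_right (by linarith : w - (1 + w - A) ≤ 0)]
  -- `t = w - A`: `w (w - t) (1 + t) + t³/3 ≤ w²`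
  obtain ⟨t, ht⟩ : ∃ t, t = w - A := ⟨_, rfl⟩
  have hA' : A = w - t := by linarith
  have t0 : 0 ≤ t := by linarith
  have tw : t ≤ w := by linarith
  rw [← ht, hA']
  have k1 : 0 ≤ w * t * (1 - w) := mul_nonneg (mul_nonneg hw t0) (by linarith)
  have k2 : 0 ≤ t * t * (w - t) := mul_nonneg (mul_nonneg t0 t0) (by linarith)
  have k3 : 0 ≤ t ^ 3 := pow_nonneg t0 3
  nlinarith

theorem vl_zero {w A : ℝ} (hA : 0 ≤ A) (hAw : A ≤ w) : vl w A (w - A) = 0 := by
  unfold vl
  rw [max_eq_left (by linarith : 0 ≤ w - A), max_eq_left (by linarith : 0 ≤ w - (w - A))]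
  ring

theorem cube_conv (x y : ℝ) :
    (max x 0) ^ 3 - (max y 0) ^ 3 ≤ 3 * (max x 0) ^ 2 * (x - y) := by
  rcases le_total x 0 with hx | hx
  · rw [max_eq_right hx]
    have := pow_nonneg (le_max_right y 0) 3
    nlinarith
  · rw [max_eq_left hx]
    rcases le_total y 0 with hy | hy
    · rw [max_eq_right hy]
      nlinarith [mul_nonneg (mul_nonneg hx hx) (neg_nonneg.2 hy), mul_nonneg hx (mul_nonneg hx hx)]
    · rw [max_eq_left hy]
      nlinarith [mul_nonneg hx (sq_nonneg (x - y)), mul_nonneg hy (sq_nonneg (x - y))]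

/-- the volume minus a penalty is convex in `B`: it is bounded by its values at the ends -/
theorem vl_conv {w A K r t1 B t2 C : ℝ} (h1 : t1 ≤ B) (h2 : B ≤ t2)
    (e1 : vl w A t1 - K * (r + t1) ≤ C) (e2 : vl w A t2 - K * (r + t2) ≤ C) :
    vl w A B - K * (r + B) ≤ C := by
  have c1 := cube_conv (w - B) (w - t1)
  have c2 := cube_conv (w - B) (w - t2)
  unfold vl at *
  rcases le_total 0 (w * A - (max (w - B) 0) ^ 2 - K) with h | h
  · have := mul_nonneg h (sub_nonneg.2 h2)
    nlinarith
  · have := mul_nonneg (neg_nonneg.2 h) (sub_nonneg.2 h1)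
    nlinarith

/-! ### No far cell -/

section

variable {X de da ca db cb W ue ua ub : ℝ}

theorem none_branch (hI : RI X de ca da cb db W) (hN : NP X de ca da cb db W) (ha : 0 ≤ ca)
    (hb : 0 ≤ cb) (re : Row de ue) (ra : Row da ua) (rb : Row db ub) :
    sx X de ue + sx ca da ua + sx cb db ub ≤ W := by
  have sa := sx_le_st ha (by linarith [ra.d1]) ra.lo ra.hi
  have sb := sx_le_st hb (by linarith [rb.d1]) rb.lo rb.hi
  have a0 := le_max_right ua 0
  have b0 := le_max_right ub 0
  have a1 : max ua 0 ≤ 1 := max_le ra.hi zero_le_one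
  have b1 : max ub 0 ≤ 1 := max_le rb.hi zero_le_one
  rcases le_total ue de with h | h
  · have se := sx_le_mj (X := X) (d := de) re.d0 re.hi h
    have := hI 0 0 0 (de - ue) (max ua 0) (max ub 0) le_rfl (by norm_num) le_rfl le_rfl
      (by linarith) (by linarith [re.lo]) a0 a1 b0 b1 (by linarith [ra.d0]) (by linarith [rb.d0])
      (by norm_num) le_rfl le_rfl
    have e : (0 : ℝ) * 0 * 0 - 0 ^ 3 / 3 = 0 := by norm_num
    linarith
  · have u0 : 0 ≤ ue := re.d0.trans h
    have se := sx_of_nonneg (c := X) (d := de) u0 re.hi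
    have := hN ue (max ua 0) (max ub 0) u0 re.hi a0 a1 b0 b1
    have e : st X de ue = X * ue - (1 - de) * ue ^ 2 / 2 := rfl
    linarith

end

/-! ### The far class is not the lowest one -/

section

variable {X de νi di νo dO κ K W ue ui uo w A B s : ℝ}

/-- kind A for the third class -/
theorem lo_A (H : Lo X de νi di νo dO κ K W) (hνo : 0 ≤ νo) (re : Row de ue)
    (ri : Row di ui) (ro : Row dO uo) (hei : ue ≤ ui) (how : ui ≤ di - w) (w0 : 0 ≤ w)
    (w1 : w ≤ 13 / 20) (hA : 0 ≤ A) (hB : 0 ≤ B) (h1 : w ≤ A + B) (h2 : A + B ≤ 1 + w)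
    (hcap : uo ≤ 1 - B + dO) :
    sx X de ue + sx (νi - κ) di ui + sx νo dO uo + vl w A B ≤ W := by
  have m := H.m
  have d0 := ri.d0
  have d1 := ri.d1
  have hci : 0 ≤ νi - κ := (mul_nonneg d0 (by linarith)).trans m
  have se := sx_le_mj (X := X) (d := de) d0 re.hi (by linarith : ue ≤ di)
  have si : sx (νi - κ) di ui ≤ mj (νi - κ) (1 - di) di w := by
    have s1 := sx_own hci ri.lo ri.hi how w0 (by linarith) (by linarith)
    have s2 := sx_le_mj (X := νi - κ) (d := di) (D := di) (u := di - w) d0 (by linarith)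
      (by linarith)
    have e : di - (di - w) = w := by ring
    rw [e] at s2
    exact s1.trans s2
  have so := sx_le_st hνo (by linarith [ro.d1]) ro.lo ro.hi
  have o0 := le_max_right uo 0
  have o1 : max uo 0 ≤ 1 := max_le ro.hi zero_le_one
  have k1 : w ≤ di - ue := by linarith
  have k2 : di - ue ≤ 1 + di - de := by linarith [re.lo]
  rcases le_total B 1 with hB1 | hB1
  · have v1 := vl_mono_l w0 hA hB h1 (by linarith : A ≤ 1 + w - B)
    have ocap : max uo 0 ≤ 1 - B + dO := max_le hcap (by linarith [ro.d0])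
    rcases le_total w B with h | h
    · have v2 := vl_le_large (w := w) (A := 1 + w - B) (by linarith) h
      have := H.a1 w B (di - ue) (max uo 0) w0 w1 k1 k2 o0 o1 ocap h hB1
      linarith
    · have v2 := vl_le_small (w := w) (A := 1 + w - B) (B := B) hB (by linarith)
        (by linarith) h
      have := H.a2 w B (di - ue) (max uo 0) w0 w1 k1 k2 o0 o1 ocap hB h
      linarith
  · have v1 := vl_le_one w0 (by linarith) hA hB1 h2
    have ocap : max uo 0 ≤ 1 - 1 + dO := max_le (by linarith) (by linarith [ro.d0])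
    have := H.a1 w 1 (di - ue) (max uo 0) w0 w1 k1 k2 o0 o1 ocap (by linarith) le_rfl
    have e : w * (1 + w - 1) * 1 - w ^ 3 / 3 = w * w - w ^ 3 / 3 := by ring
    linarith

/-- the entry of the third class is at least the one of the far class -/
theorem lo_ge (H : Lo X de νi di νo dO κ K W) (hK : 0 ≤ K) (hνo : 0 ≤ νo)
    (re : Row de ue)
    (ri : Row di ui) (ro : Row dO uo) (hei : ue ≤ ui) (how : ui ≤ di - w) (w0 : 0 ≤ w)
    (w1 : w ≤ 13 / 20) (hA : 0 ≤ A) (hB : 0 ≤ B) (h1 : w ≤ A + B) (h2 : A + B ≤ 1 + w)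
    (hs : 0 ≤ s) (hcap : uo ≤ 1 - B + dO ∨ uo + A + B - 1 ≤ s) :
    sx X de ue + sx (νi - κ) di ui + sx νo dO uo + vl w A B ≤ W + K * s := by
  have hKs := mul_nonneg hK hs
  rcases hcap with hcap | hcap
  · have := lo_A H hνo re ri ro hei how w0 w1 hA hB h1 h2 hcap
    linarith
  rcases le_total uo (1 - B + dO) with hc | hc
  · have := lo_A H hνo re ri ro hei how w0 w1 hA hB h1 h2 hc
    linarith
  have m := H.m
  have d0 := ri.d0
  have d1 := ri.d1
  have hci : 0 ≤ νi - κ := (mul_nonneg d0 (by linarith)).trans m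
  have se := sx_le_mj (X := X) (d := de) d0 re.hi (by linarith : ue ≤ di)
  have si : sx (νi - κ) di ui ≤ mj (νi - κ) (1 - di) di w := by
    have s1 := sx_own hci ri.lo ri.hi how w0 (by linarith) (by linarith)
    have s2 := sx_le_mj (X := νi - κ) (d := di) (D := di) (u := di - w) d0 (by linarith)
      (by linarith)
    have e : di - (di - w) = w := by ring
    rw [e] at s2
    exact s1.trans s2
  have so := sx_le_st hνo (by linarith [ro.d1]) ro.lo ro.hi
  have k1 : w ≤ di - ue := by linarith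
  have k2 : di - ue ≤ 1 + di - de := by linarith [re.lo]
  have o0 := ro.d0
  rcases le_total uo 0 with hu | hu
  · -- `uo ≤ 0`, so `B ≥ 1`
    rw [max_eq_right hu] at so
    have hB1 : 1 ≤ B := by linarith
    have v1 := vl_le_one w0 (by linarith) hA hB1 h2
    have := H.a1 w 1 (di - ue) 0 w0 w1 k1 k2 le_rfl zero_le_one (by linarith) (by linarith) le_rfl
    have e : w * (1 + w - 1) * 1 - w ^ 3 / 3 = w * w - w ^ 3 / 3 := by ring
    linarith
  · rw [max_eq_left hu] at so
    have hpen := mul_le_mul_of_nonneg_left hcap hK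
    -- convexity in `B`
    have hC : vl w A B - K * ((uo + A - 1) + B) ≤
        W - (sx X de ue + sx (νi - κ) di ui + sx νo dO uo) := by
      rcases le_total (w - A) (1 + dO - uo) with ht | ht
      · refine vl_conv (t1 := 1 + dO - uo) (t2 := 1 + w - A) (by linarith) (by linarith) ?_ ?_
        · have := lo_A H hνo re ri ro hei how w0 w1 hA (B := 1 + dO - uo)
            (by linarith [ro.hi]) (by linarith) (by linarith) (by linarith)
          have h3 := mul_nonneg hK (by linarith : 0 ≤ A + dO)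
          have e : K * ((uo + A - 1) + (1 + dO - uo)) = K * (A + dO) := by ring
          rw [e]
          linarith
        · have h3 := H.b w (di - ue) uo w0 w1 k1 k2 hu ro.hi
          have h4 := vl_le_vm (w := w) (A := A) (B := 1 + w - A) w0 (by linarith) hA
            (by linarith) (by linarith) (by linarith)
          have e : K * ((uo + A - 1) + (1 + w - A)) = K * (uo + w) := by ring
          rw [e]
          linarith
      · refine vl_conv (t1 := w - A) (t2 := 1 + w - A) (by linarith) (by linarith) ?_ ?_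
        · have hAw : A ≤ w := by linarith [ro.hi]
          rw [vl_zero hA hAw]
          have h3 := H.a2 w 0 (di - ue) uo w0 w1 k1 k2 hu ro.hi (by linarith [ro.hi]) le_rfl w0
          have h4 := mul_nonneg hK (by linarith : 0 ≤ (uo + A - 1) + (w - A))
          have e : w * (1 + w - 0) * 0 - w ^ 2 * 0 / 3 = 0 := by ring
          linarith
        · have h3 := H.b w (di - ue) uo w0 w1 k1 k2 hu ro.hi
          have h4 := vl_le_vm (w := w) (A := A) (B := 1 + w - A) w0 (by linarith) hA
            (by linarith) (by linarith) (by linarith)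
          have e : K * ((uo + A - 1) + (1 + w - A)) = K * (uo + w) := by ring
          rw [e]
          linarith
    have e : K * ((uo + A - 1) + B) = K * (uo + A + B - 1) := by ring
    rw [e] at hC
    linarith

/-- the entry of the third class is at most the one of the far class -/
theorem lo_le (H : Lo X de νi di νo dO κ K W) (hκ : 0 ≤ κ) (re : Row de ue)
    (ri : Row di ui) (ro : Row dO uo) (hei : ue ≤ ui) (hoi : uo ≤ ui) (how : ui ≤ di - w)
    (w0 : 0 ≤ w) (w1 : w ≤ 13 / 20) (hA : 0 ≤ A) (hB : 0 ≤ B) (h1 : w ≤ A + B)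
    (h2 : A + B ≤ 1 + w) :
    sx X de ue + sx νi di ui + sx (νo - κ) dO uo + vl w A B ≤ W := by
  have m := H.m
  have d0 := ri.d0
  have d1 := ri.d1
  have hci : 0 ≤ νi - κ := (mul_nonneg d0 (by linarith)).trans m
  have se := sx_le_mj (X := X) (d := de) d0 re.hi (by linarith : ue ≤ di)
  have so := sx_le_mj (X := νo - κ) (d := dO) d0 ro.hi (by linarith : uo ≤ di)
  have si : sx νi di ui ≤ mj νi (1 - di) di w := by
    have s1 := sx_own (c := νi) (by linarith) ri.lo ri.hi how w0 (by linarith) (by linarith)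
    have s2 := sx_le_mj (X := νi) (d := di) (D := di) (u := di - w) d0 (by linarith)
      (by linarith)
    have e : di - (di - w) = w := by ring
    rw [e] at s2
    exact s1.trans s2
  have v := vl_le_vm w0 (by linarith) hA hB h1 h2
  have := H.c w (di - ue) (di - uo) w0 w1 (by linarith) (by linarith [re.lo]) (by linarith)
    (by linarith [ro.lo])
  linarith

end

/-! ### The fields of `ColR` -/

section

variable {ne na nb ka kb K La Lb Lab W de da db : ℝ}

theorem cval_le {ue ua ub : ℝ} (h : ub ≤ ua) : Cval ne na nb ka kb K de da db ue ua ub =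
    sx (ne - ka - kb) de ue + sx na da ua + sx (nb - K) db ub := by
  unfold Cval
  rw [min_eq_right h, sx_sub, sx_sub, sx_sub]
  ring

theorem cval_ge {ue ua ub : ℝ} (h : ua ≤ ub) : Cval ne na nb ka kb K de da db ue ua ub =
    sx (ne - ka - kb) de ue + sx (na - K) da ua + sx nb db ub := by
  unfold Cval
  rw [min_eq_left h, sx_sub, sx_sub, sx_sub]
  ring

/-- **No far cell.** -/
theorem col_none (H : Pool.Agent.Helper83.TS.Col (ne - ka - kb) de na da nb db K La Lb Lab W)
    {ue ua ub : ℝ} (re : Row de ue) (ra : Row da ua) (rb : Row db ub) :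
    Cval ne na nb ka kb K de da db ue ua ub ≤ W := by
  have hK := H.hκ
  have ma := H.la.m
  have mb := H.lb.m
  have a0 : 0 ≤ na - K := (mul_nonneg ra.d0 (by linarith [ra.d1])).trans ma
  have b0 : 0 ≤ nb - K := (mul_nonneg rb.d0 (by linarith [rb.d1])).trans mb
  rcases le_total ub ua with h | h
  · rw [cval_le h]
    exact none_branch H.br0.rI H.br0.n (by linarith) b0 re ra rb
  · rw [cval_ge h]
    exact none_branch H.br1.rI H.br1.n a0 (by linarith) re ra rb

variable {f w d al be se so : ℝ}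

/-- **A far cell of the class `a`.** -/
theorem col_fa (H : Pool.Agent.Helper83.TS.Col (ne - ka - kb) de na da nb db K La Lb Lab W)
    {ue ua ub : ℝ} (re : Row de ue) (ra : Row da ua) (rb : Row db ub) (h1 : ue ≤ ua)
    (F : FarC f w d al be ua ue ub da de db se so) (ho : w ≤ -ua + max (da - d) 0)
    (hw : w ≤ 13 / 20) (hse : 0 ≤ se) (hso : 0 ≤ so) :
    Cval ne na nb ka kb K de da db ue ua ub + f ≤ W + La * se + Lab * so := by
  have hK := H.hκ
  have mb := H.lb.m
  have b0 : 0 ≤ nb - K := (mul_nonneg rb.d0 (by linarith [rb.d1])).trans mb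
  obtain ⟨ef, hA, hB, s1, s2, -⟩ := farC_vl F
  have hU : ua ≤ da - w := by
    have d0 := F.d0
    have a0 := ra.d0
    rcases max_cases (da - d) 0 with ⟨e, -⟩ | ⟨e, -⟩ <;> rw [e] at ho <;> linarith
  have p1 := mul_nonneg H.hKa hse
  have p2 := mul_nonneg H.hKab hso
  have F' := Pool.Agent.Helper19.TS.FarC_swap F
  rw [ef]
  rcases le_total ub ua with h | h
  · rw [cval_le h]
    have := lo_le H.la hK re ra rb h1 h hU F.w0.le hw hA.le hB.le s1.le s2
    linarith
  · rw [cval_ge h]
    have hcap : ub ≤ 1 - (1 - be) + db ∨ ub + (1 - al) + (1 - be) - 1 ≤ so := by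
      rcases F'.capx with hc | hc
      · left
        rw [min_eq_left (by linarith [rb.hi, F.w1] : ub ≤ 2 - w)] at hc
        linarith
      · right
        have := slack_kindB F' ra.d0 rb.hi ho hc
        linarith
    have := lo_ge H.la H.hKab (by linarith) re ra rb h1 hU F.w0.le hw hA.le hB.le s1.le s2
      hso hcap
    linarith

/-- **A far cell of the class `b`.** -/
theorem col_fb (H : Pool.Agent.Helper83.TS.Col (ne - ka - kb) de na da nb db K La Lb Lab W)
    {ue ua ub : ℝ} (re : Row de ue) (ra : Row da ua) (rb : Row db ub) (h2 : ue ≤ ub)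
    (F : FarC f w d al be ub ue ua db de da se so) (ho : w ≤ -ub + max (db - d) 0)
    (hw : w ≤ 13 / 20) (hse : 0 ≤ se) (hso : 0 ≤ so) :
    Cval ne na nb ka kb K de da db ue ua ub + f ≤ W + Lb * se + Lab * so := by
  have hK := H.hκ
  have ma := H.la.m
  have a0 : 0 ≤ na - K := (mul_nonneg ra.d0 (by linarith [ra.d1])).trans ma
  obtain ⟨ef, hA, hB, s1, s2, -⟩ := farC_vl F
  have hU : ub ≤ db - w := by
    have d0 := F.d0
    have b0 := rb.d0
    rcases max_cases (db - d) 0 with ⟨e, -⟩ | ⟨e, -⟩ <;> rw [e] at ho <;> linarith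
  have p1 := mul_nonneg H.hKb hse
  have p2 := mul_nonneg H.hKab hso
  have F' := Pool.Agent.Helper19.TS.FarC_swap F
  rw [ef]
  rcases le_total ua ub with h | h
  · rw [cval_ge h]
    have := lo_le H.lb hK re rb ra h2 h hU F.w0.le hw hA.le hB.le s1.le s2
    linarith
  · rw [cval_le h]
    have hcap : ua ≤ 1 - (1 - be) + da ∨ ua + (1 - al) + (1 - be) - 1 ≤ so := by
      rcases F'.capx with hc | hc
      · left
        rw [min_eq_left (by linarith [ra.hi, F.w1] : ua ≤ 2 - w)] at hc
        linarith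
      · right
        have := slack_kindB F' rb.d0 ra.hi ho hc
        linarith
    have := lo_ge H.lb H.hKab (by linarith) re rb ra h2 hU F.w0.le hw hA.le hB.le s1.le s2
      hso hcap
    linarith

/-- **The column, from its hardest field** (the far cell of the lowest class). -/
theorem colR_of_low
    (H : Pool.Agent.Helper83.TS.Col (ne - ka - kb) de na da nb db K La Lb Lab W)
    (low : ∀ ue ua ub f w d al be sa sb, Row de ue → Row da ua → Row db ub → ue ≤ ua → ue ≤ ub →
      FarC f w d al be ue ua ub de da db sa sb → w ≤ -ue + max (de - d) 0 → w ≤ 13 / 20 →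
      f ≤ 9 / 25 → 0 ≤ sa → 0 ≤ sb →
      Cval ne na nb ka kb K de da db ue ua ub + f ≤ W + La * sa + Lb * sb) :
    ColR ne na nb ka kb K La Lb Lab W de da db where
  none _ _ _ re ra rb _ _ := col_none H re ra rb
  low := low
  fa _ _ _ _ _ _ _ _ _ _ re ra rb h1 _ F ho hw _ hse hso :=
    col_fa H re ra rb h1 F ho hw hse hso
  fb _ _ _ _ _ _ _ _ _ _ re ra rb _ h2 F ho hw _ hse hso :=
    col_fb H re ra rb h2 F ho hw hse hso
  la := H.hKa
  lb := H.hKb
  lab := H.hKab

end

end Pool.Agent.Helper90.TS
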