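import Pool.Agent.Helper90.TS.N2Asm
import Pool.Agent.Helper95.TS.Class3P
import Pool.Agent.Helper5.TS.Gain

/-!
# `TwoLowNE`: two weak classes with a cell of kind B: the skeleton

`i`: the weak class of the witness `C` (kind B on the row `x`, `d_C < 11/20`), `j` the other weak class, `y` the
other row; `u^r_m = -P r m`, `d_r = P r r - 1`. The frame: multipliers `nx`, `ny`, `k` as in `two_rows` and
`lam ≥ 0` for `u^x_i - 1 + d_C ≥ 0`. `CaseT`: `C = A i j`; `CaseO`: `C = A i y`.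
-/

set_option autoImplicit false

namespace Pool.Agent.Helper90.TS

open Pool.Agent.Helper84.TS Pool.Agent.Helper23.TS Pool.Agent.Helper36.TS Pool.Agent.Helper44.TS
  Pool.Agent.Helper74.TS

variable {A : Fin 4 → Fin 4 → Option (Fin 4 → ℝ)} {P : Fin 4 → Fin 4 → ℝ}

/-! ### violated caps -/

/-- the cap of the far cell `F = A i m` on the row `r` is violated (`z` the fourth index), any height -/
structure Viol (A : Fin 4 → Fin 4 → Option (Fin 4 → ℝ)) (P : Fin 4 → Fin 4 → ℝ) (i m r z : Fin 4)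
    (F : Fin 4 → ℝ) : Prop where
  hn : [i, m, r, z].Nodup
  hF : A i m = some F
  hr : A r r = some (P r)
  cap : (F z + (F i - 1)) + (P r r - 1) < -P r m

/-- an entry of a main cell is at most `1` -/
theorem entry_le (h : OF A) {r m : Fin 4} (hr : A r r = some (P r)) (hmr : m ≠ r) : -P r m ≤ 1 := by
  have := h.main r _ hr m hmr
  linarith

/-- the consequences of a violated cap -/
theorem Viol.out (h : OF A) {i m r z : Fin 4} {F : Fin 4 → ℝ} (k : Viol A P i m r z F) :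
    -P r m + -P r z ≤ (F i - 1) + (P r r - 1) ∧ 1 - (F i - 1) ≤ -P r i ∧ 0 ≤ F i - 1 ∧
      0 ≤ P r r - 1 := by
  have hmi : m ≠ i := (nodup_ne k.hn).1
  have hri : r ≠ i := (nodup_ne k.hn).2.1
  have hnr : [r, m, i, z].Nodup := by
    have := k.hn
    clear * - this; revert this; revert i m r z; decide
  have hmr : m ≠ r := (nodup_ne hnr).1
  have hs : Sep F (P r) := h.sep i m r r F (P r) k.hF k.hr
    (fun e => hri (by rw [Prod.mk.injEq] at e; exact e.1.symm))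
  have hcF := h.cell i m F k.hF
  have hcr := h.cell r r _ k.hr
  have h1 := h.main r _ k.hr m hmr
  have h2 := h.far i m F hmi k.hF
  have h0 := (cell_lin hcF k.hn).2.1
  have h0' := (cell_lin hcr hnr).2.1
  rcases wk_cap_le hcF hcr k.hn hs (by linarith) with h3 | h3
  · exact absurd h3 (not_le.2 k.cap)
  · exact ⟨h3.1, h3.2, by linarith, by linarith⟩

private theorem viol_aux (h : OF A) {i m r z : Fin 4} {F : Fin 4 → ℝ} (k : Viol A P i m r z F)
    (l : Viol A P i m z r F) (ho : -P z m ≤ -P r m) : False := by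
  have n := nodup_ne k.hn
  have nx : [i, m, r, z].Nodup := k.hn
  have hmr : m ≠ r := by
    have := k.hn
    clear * - this; revert this; revert i m r z; decide
  have o1 := k.out h
  have o2 := l.out h
  have hp := pair_rows (P := P) h nx k.hr l.hr
  have hm : 1 - (F i - 1) ≤ min (-P r i) (-P z i) := le_min o1.2.1 o2.2.1
  rw [min_eq_right ho] at hp
  have c := cell_lin (h.cell i m F k.hF) k.hn
  have hf := h.far i m F n.1 k.hF
  have he := entry_le h k.hr hmr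
  have k1 := k.cap
  have k2 := l.cap
  linarith

/-- **F1**: a cell violates at most one of its caps on two rows. -/
theorem viol_not_both (h : OF A) {i m r z : Fin 4} {F : Fin 4 → ℝ} (k : Viol A P i m r z F)
    (l : Viol A P i m z r F) : False := by
  rcases le_total (-P z m) (-P r m) with ho | ho
  · exact viol_aux h k l ho
  · exact viol_aux h l k ho

/-- **F2**: a row violates at most one cap of a class. -/
theorem viol_not_two (h : OF A) {i m r z : Fin 4} {F D : Fin 4 → ℝ} (k : Viol A P i m r z F)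
    (l : Viol A P i z r m D) : False := by
  have n := nodup_ne k.hn
  have n' := nodup_ne l.hn
  have hmz : m ≠ z := by
    have := k.hn
    clear * - this; revert this; revert i m r z; decide
  have o1 := k.out h
  have o2 := l.out h
  have c1 := cell_lin (h.cell i m F k.hF) k.hn
  have c2 := cell_lin (h.cell i z D l.hF) l.hn
  have k1 := k.cap
  have k2 := l.cap
  rcases Pool.Agent.Helper5.TS.support h k.hF l.hF n.1 n.2.2 hmz with hs | hs
  · linarith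
  · linarith

/-- the kind of a cell on a row -/
theorem kind_or (h : OF A) {i m r z : Fin 4} {F : Fin 4 → ℝ} (hn : [i, m, r, z].Nodup)
    (hF : A i m = some F) (hr : A r r = some (P r)) :
    -P r m ≤ (F z + (F i - 1)) + (P r r - 1) ∨
      (-P r m + -P r z ≤ (F i - 1) + (P r r - 1) ∧ 1 - (F i - 1) ≤ -P r i) := by
  by_cases hc : -P r m ≤ (F z + (F i - 1)) + (P r r - 1)
  · exact Or.inl hc
  · have k : Viol A P i m r z F := ⟨hn, hF, hr, not_le.1 hc⟩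
    exact Or.inr ⟨(k.out h).1, (k.out h).2.1⟩

/-! ### the contexts -/

/-- the witness `C` of the class `i` on the row `x`: common facts -/
structure Wit (A : Fin 4 → Fin 4 → Option (Fin 4 → ℝ)) (P : Fin 4 → Fin 4 → ℝ) (i j x y : Fin 4)
    (C : Fin 4 → ℝ) : Prop where
  R : Rows A P i j x y
  ri : Helper84.TS.R2 A i
  rj : Helper84.TS.R2 A j
  d0 : 0 ≤ C i - 1
  dC : C i - 1 < 11 / 20
  ux : 1 - (C i - 1) ≤ -P x i
  /-- the coupled bound; the columns are `j` and `y` in both cases -/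
  uxs : -P x j + -P x y ≤ (C i - 1) + (P x x - 1)

/-- `C = A i j` -/
structure CtxT (A : Fin 4 → Fin 4 → Option (Fin 4 → ℝ)) (P : Fin 4 → Fin 4 → ℝ) (i j x y : Fin 4)
    (C : Fin 4 → ℝ) : Prop extends Wit A P i j x y C where
  hC : A i j = some C
  cap : (C y + (C i - 1)) + (P x x - 1) < -P x j
  /-- F1: `C` is of kind A on the row `y` -/
  f1 : -P y j ≤ (C x + (C i - 1)) + (P y y - 1)
  /-- F2: the cell `(i; y)` is of kind A on the row `x` -/
  f2 : ∀ D, A i y = some D → -P x y ≤ (D j + (D i - 1)) + (P x x - 1)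

/-- `C = A i y` -/
structure CtxO (A : Fin 4 → Fin 4 → Option (Fin 4 → ℝ)) (P : Fin 4 → Fin 4 → ℝ) (i j x y : Fin 4)
    (C : Fin 4 → ℝ) : Prop extends Wit A P i j x y C where
  hC : A i y = some C
  cap : (C j + (C i - 1)) + (P x x - 1) < -P x y
  /-- F2: the cell `(i; j)` is of kind A on the row `x` -/
  f2 : ∀ D, A i j = some D → -P x j ≤ (D y + (D i - 1)) + (P x x - 1)

/-- `C = A i j`, the class `i` is good (`g = true`) or the class `j` is good (`g = false`) -/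
def CT (g : Bool) (A : Fin 4 → Fin 4 → Option (Fin 4 → ℝ)) (P : Fin 4 → Fin 4 → ℝ)
    (i j x y : Fin 4) (C : Fin 4 → ℝ) : Prop :=
  CtxT A P i j x y C ∧ (if g then ¬ Bad A i x y else ¬ Bad A j x y)

/-- `C = A i y`, the class `i` is good (`g = true`) or the class `j` is good (`g = false`) -/
def CO (g : Bool) (A : Fin 4 → Fin 4 → Option (Fin 4 → ℝ)) (P : Fin 4 → Fin 4 → ℝ)
    (i j x y : Fin 4) (C : Fin 4 → ℝ) : Prop :=
  CtxO A P i j x y C ∧ (if g then ¬ Bad A i x y else ¬ Bad A j x y)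

/-- the caps of a good class are nonnegative -/
theorem good_cmp {i x y : Fin 4} (hb : ¬ Bad A i x y) :
    (∀ F, A i x = some F → cmp i y F ≤ 1) ∧ (∀ F, A i y = some F → cmp i x F ≤ 1) := by
  constructor
  · intro F hF
    by_contra hc
    refine hb (Or.inl ⟨F, hF, ?_⟩)
    unfold cmp at hc
    linarith [not_le.1 hc]
  · intro F hF
    by_contra hc
    refine hb (Or.inr ⟨F, hF, ?_⟩)
    unfold cmp at hc
    linarith [not_le.1 hc]

/-- the status of the cell `A i m` with the components `cmp i p`, `cmp i q` and the gain `g` -/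
def St (Q : ℝ → ℝ → ℝ → ℝ → Prop) (A : Fin 4 → Fin 4 → Option (Fin 4 → ℝ)) (i m p q : Fin 4)
    (g : ℝ) : Prop :=
  g = 0 ∨ ∃ F, A i m = some F ∧ Q (2 + F m) (cmp i p F) (cmp i q F) g

/-! ### the frame -/

/-- the sum of the four classes with the additional multiplier `lam` -/
theorem ne_sum {i j x y : Fin 4} (R : Rows A P i j x y) {nx ny k lam dC : ℝ} (hk : 0 ≤ k)
    (hl : 0 ≤ lam) (hu : 1 - dC ≤ -P x i) :
    ∑ i, VV A i ≤ rowc nx (P x x - 1) + rowc ny (P y y - 1) + k * ((P x x - 1) + (P y y - 1))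
      + (col2 A P nx ny k i x y + lam * (-P x i - 1) + fo j (A j i))
      + (col2 A P nx ny k j x y + fo i (A i j))
      + (col1 A P ny x y + fo i (A i x) + fo j (A j x))
      + (col1 A P nx y x + fo i (A i y) + fo j (A j y))
      + fo i (A i i) + fo j (A j j) + lam * dC := by
  have h1 := n2_sum (nc := nx) (nl := ny) (k := k) R.of R.hn R.hx R.hy hk
  have h2 := mul_nonneg hl (by linarith : 0 ≤ -P x i - 1 + dC)
  linarith

/-- **The pieces of a case with the witness `C = A i j`.** `Ctx` is `CT true` or `CT false`. -/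
structure CaseT (Ctx : (Fin 4 → Fin 4 → Option (Fin 4 → ℝ)) → (Fin 4 → Fin 4 → ℝ) → Fin 4 → Fin 4 →
      Fin 4 → Fin 4 → (Fin 4 → ℝ) → Prop)
    (nx ny k lam : ℝ) (bI bJ bX bY : ℝ → ℝ → ℝ) (TI XI YI TJ XJ YJ : ℝ → ℝ → ℝ → ℝ → Prop)
    (ΓI ΓJ : ℝ) : Prop where
  k0 : 0 ≤ k
  l0 : 0 ≤ lam
  /-- the column `i` (cell `(j; i)`), reward `lam` for `u^x_i` -/
  colI : ∀ {A : Fin 4 → Fin 4 → Option (Fin 4 → ℝ)} {P : Fin 4 → Fin 4 → ℝ} {i j x y : Fin 4}
    {C : Fin 4 → ℝ}, Ctx A P i j x y C → ∃ g, St TJ A j i x y g ∧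
    col2 A P nx ny k i x y + lam * (-P x i - 1) + fo j (A j i) ≤ bI (P x x - 1) (P y y - 1) + g
  /-- the column `j` (cell `C`), `lam d_C` in the gain -/
  colJ : ∀ {A : Fin 4 → Fin 4 → Option (Fin 4 → ℝ)} {P : Fin 4 → Fin 4 → ℝ} {i j x y : Fin 4}
    {C : Fin 4 → ℝ}, Ctx A P i j x y C → ∃ g, TI (2 + C j) (cmp i x C) (cmp i y C) g ∧
    col2 A P nx ny k j x y + fcl i C + lam * (C i - 1) ≤ bJ (P x x - 1) (P y y - 1) + g
  /-- the column `x` (only the row `y`) -/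
  colX : ∀ {A : Fin 4 → Fin 4 → Option (Fin 4 → ℝ)} {P : Fin 4 → Fin 4 → ℝ} {i j x y : Fin 4}
    {C : Fin 4 → ℝ}, Ctx A P i j x y C → ∃ gi gj, St XI A i x j y gi ∧ St XJ A j x i y gj ∧
    col1 A P ny x y + fo i (A i x) + fo j (A j x) ≤ bX (P x x - 1) (P y y - 1) + gi + gj
  /-- the column `y` (only the row `x`) -/
  colY : ∀ {A : Fin 4 → Fin 4 → Option (Fin 4 → ℝ)} {P : Fin 4 → Fin 4 → ℝ} {i j x y : Fin 4}
    {C : Fin 4 → ℝ}, Ctx A P i j x y C → ∃ gi gj, St YI A i y j x gi ∧ St YJ A j y i x gj ∧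
    col1 A P nx y x + fo i (A i y) + fo j (A j y) ≤ bY (P x x - 1) (P y y - 1) + gi + gj
  /-- the class `i`, `(i; j) = C` present -/
  clsI : Helper95.TS.Cls3P TI XI YI ΓI
  clsJ : Helper95.TS.Cls3 TJ XJ YJ ΓJ
  tot : ∀ dx dy : ℝ, 0 ≤ dx → 0 ≤ dy → dx + dy ≤ 113 / 500 →
    rowc nx dx + rowc ny dy + k * (dx + dy) + bI dx dy + bJ dx dy + bX dx dy + bY dx dy + ΓI + ΓJ ≤
      613 / 200

/-- **The pieces of a case with the witness `C = A i y`.** `Ctx` is `CO true` or `CO false`. -/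
structure CaseO (Ctx : (Fin 4 → Fin 4 → Option (Fin 4 → ℝ)) → (Fin 4 → Fin 4 → ℝ) → Fin 4 → Fin 4 →
      Fin 4 → Fin 4 → (Fin 4 → ℝ) → Prop)
    (nx ny k lam : ℝ) (bI bJ bX bY : ℝ → ℝ → ℝ) (TI XI YI TJ XJ YJ : ℝ → ℝ → ℝ → ℝ → Prop)
    (ΓI ΓJ : ℝ) : Prop where
  k0 : 0 ≤ k
  l0 : 0 ≤ lam
  /-- the column `i` (cell `(j; i)`), reward `lam` for `u^x_i` -/
  colI : ∀ {A : Fin 4 → Fin 4 → Option (Fin 4 → ℝ)} {P : Fin 4 → Fin 4 → ℝ} {i j x y : Fin 4}
    {C : Fin 4 → ℝ}, Ctx A P i j x y C → ∃ g, St TJ A j i x y g ∧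
    col2 A P nx ny k i x y + lam * (-P x i - 1) + fo j (A j i) ≤ bI (P x x - 1) (P y y - 1) + g
  /-- the column `j` (cell `(i; j)`) -/
  colJ : ∀ {A : Fin 4 → Fin 4 → Option (Fin 4 → ℝ)} {P : Fin 4 → Fin 4 → ℝ} {i j x y : Fin 4}
    {C : Fin 4 → ℝ}, Ctx A P i j x y C → ∃ g, St TI A i j x y g ∧
    col2 A P nx ny k j x y + fo i (A i j) ≤ bJ (P x x - 1) (P y y - 1) + g
  /-- the column `x` (only the row `y`) -/
  colX : ∀ {A : Fin 4 → Fin 4 → Option (Fin 4 → ℝ)} {P : Fin 4 → Fin 4 → ℝ} {i j x y : Fin 4}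
    {C : Fin 4 → ℝ}, Ctx A P i j x y C → ∃ gi gj, St XI A i x j y gi ∧ St XJ A j x i y gj ∧
    col1 A P ny x y + fo i (A i x) + fo j (A j x) ≤ bX (P x x - 1) (P y y - 1) + gi + gj
  /-- the column `y` (only the row `x`; cells `C` and `(j; y)`), `lam d_C` in the gain of `C` -/
  colY : ∀ {A : Fin 4 → Fin 4 → Option (Fin 4 → ℝ)} {P : Fin 4 → Fin 4 → ℝ} {i j x y : Fin 4}
    {C : Fin 4 → ℝ}, Ctx A P i j x y C → ∃ gi gj, YI (2 + C y) (cmp i j C) (cmp i x C) gi ∧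
    St YJ A j y i x gj ∧
    col1 A P nx y x + fcl i C + lam * (C i - 1) + fo j (A j y) ≤
      bY (P x x - 1) (P y y - 1) + gi + gj
  /-- the class `i`, `(i; y) = C` present; `Cls3P` with the order `y`, `j`, `x` of the other classes, so the
  components of the cells `(i; j)`, `(i; x)` are exchanged -/
  clsI : Helper95.TS.Cls3P YI (fun w A B g => TI w B A g) (fun w A B g => XI w B A g) ΓI
  clsJ : Helper95.TS.Cls3 TJ XJ YJ ΓJ
  tot : ∀ dx dy : ℝ, 0 ≤ dx → 0 ≤ dy → dx + dy ≤ 113 / 500 →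
    rowc nx dx + rowc ny dy + k * (dx + dy) + bI dx dy + bJ dx dy + bX dx dy + bY dx dy + ΓI + ΓJ ≤
      613 / 200

section

variable {Ctx : (Fin 4 → Fin 4 → Option (Fin 4 → ℝ)) → (Fin 4 → Fin 4 → ℝ) → Fin 4 → Fin 4 →
      Fin 4 → Fin 4 → (Fin 4 → ℝ) → Prop}
  {nx ny k lam : ℝ} {bI bJ bX bY : ℝ → ℝ → ℝ} {TI XI YI TJ XJ YJ : ℝ → ℝ → ℝ → ℝ → Prop}
  {ΓI ΓJ : ℝ} {i j x y : Fin 4} {C : Fin 4 → ℝ}

theorem nodup_flip {i j x y : Fin 4} (hn : [i, j, x, y].Nodup) :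
    [j, i, x, y].Nodup ∧ [i, j, y, x].Nodup ∧ [i, y, j, x].Nodup ∧ [i, y, x, j].Nodup := by
  revert hn
  revert i j x y
  decide

theorem CaseT.sum (p : CaseT Ctx nx ny k lam bI bJ bX bY TI XI YI TJ XJ YJ ΓI ΓJ)
    (h : Ctx A P i j x y C) (W : Wit A P i j x y C) (hC : A i j = some C) :
    ∑ i, VV A i ≤ 613 / 200 := by
  have R := W.R
  obtain ⟨g1, s1, c1⟩ := p.colI h
  obtain ⟨g2, s2, c2⟩ := p.colJ h
  obtain ⟨g3, g4, s3, s4, c3⟩ := p.colX h
  obtain ⟨g5, g6, s5, s6, c4⟩ := p.colY h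
  have hI := p.clsI A R.of i j x y R.hn W.ri C g2 g3 g5 hC s2 s3 s5
  have hJ := p.clsJ A R.of j i x y (nodup_flip R.hn).1 W.rj g1 g4 g6 s1 s4 s6
  have h1 := ne_sum (nx := nx) (ny := ny) (k := k) (lam := lam) R p.k0 p.l0 W.ux
  have h2 := p.tot _ _ R.dx R.dy R.ds
  have e1 : fo i (A i j) = fcl i C := by rw [hC]; rfl
  rw [e1] at h1
  linarith

theorem CaseO.sum (p : CaseO Ctx nx ny k lam bI bJ bX bY TI XI YI TJ XJ YJ ΓI ΓJ)
    (h : Ctx A P i j x y C) (W : Wit A P i j x y C) (hC : A i y = some C) :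
    ∑ i, VV A i ≤ 613 / 200 := by
  have R := W.R
  obtain ⟨g1, s1, c1⟩ := p.colI h
  obtain ⟨g2, s2, c2⟩ := p.colJ h
  obtain ⟨g3, g4, s3, s4, c3⟩ := p.colX h
  obtain ⟨g5, g6, s5, s6, c4⟩ := p.colY h
  have hI := p.clsI A R.of i y j x (nodup_flip R.hn).2.2.1 W.ri C g5 g2 g3 hC s5
    (s2.imp id fun ⟨F, hF, hQ⟩ => ⟨F, hF, hQ⟩) (s3.imp id fun ⟨F, hF, hQ⟩ => ⟨F, hF, hQ⟩)
  have hJ := p.clsJ A R.of j i x y (nodup_flip R.hn).1 W.rj g1 g4 g6 s1 s4 s6
  have h1 := ne_sum (nx := nx) (ny := ny) (k := k) (lam := lam) R p.k0 p.l0 W.ux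
  have h2 := p.tot _ _ R.dx R.dy R.ds
  have e1 : fo i (A i y) = fcl i C := by rw [hC]; rfl
  rw [e1] at h1
  linarith

end

/-! ### the case split -/

/-- **The case split of `TwoLowNE`.** -/
theorem ne_cases
    (t : ∀ (g : Bool) (A : Fin 4 → Fin 4 → Option (Fin 4 → ℝ)) (P : Fin 4 → Fin 4 → ℝ)
      (i j x y : Fin 4) (C : Fin 4 → ℝ), CT g A P i j x y C → ∑ i, VV A i ≤ 613 / 200)
    (o : ∀ (g : Bool) (A : Fin 4 → Fin 4 → Option (Fin 4 → ℝ)) (P : Fin 4 → Fin 4 → ℝ)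
      (i j x y : Fin 4) (C : Fin 4 → ℝ), CO g A P i j x y C → ∑ i, VV A i ≤ 613 / 200) :
    TwoLowNE := by
  intro A P a b c l R ha hb i m x z F n hi hx hF d1 cap e
  obtain ⟨j, y, R', ri, rj⟩ : ∃ j y, Rows A P i j x y ∧ Helper84.TS.R2 A i ∧ Helper84.TS.R2 A j := by
    rcases hi with rfl | rfl <;> rcases hx with rfl | rfl
    · exact ⟨b, l, R, ha, hb⟩
    · exact ⟨b, c, R.flip, ha, hb⟩
    · exact ⟨a, l, R.swap, hb, ha⟩
    · exact ⟨a, c, R.swap.flip, hb, ha⟩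
  have k : Viol A P i m x z F := ⟨n, hF, R'.hx, cap⟩
  have o1 := k.out R'.of
  have hn := R'.hn
  have hm : (m = j ∧ z = y) ∨ (m = y ∧ z = j) := by
    clear * - n hn
    revert n hn
    revert i m x z j y
    decide
  obtain ⟨nf1, nf2, nf4, nf3⟩ := nodup_flip hn
  rcases hm with ⟨rfl, rfl⟩ | ⟨rfl, rfl⟩
  · have W : Wit A P i m x z F := ⟨R', ri, rj, o1.2.2.1, d1, o1.2.1, o1.1⟩
    have T : CtxT A P i m x z F := ⟨W, hF, cap, by
      by_contra hc
      exact viol_not_both R'.of k ⟨nf2, hF, R'.hy, not_le.1 hc⟩, fun D hD => by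
      by_contra hc
      exact viol_not_two R'.of k ⟨nf3, hD, R'.hx, not_le.1 hc⟩⟩
    by_cases hb' : Bad A i x z
    · exact t false A P i m x z F ⟨T, by simpa using bad_excl R'.of hn hb'⟩
    · exact t true A P i m x z F ⟨T, by simpa using hb'⟩
  · have W : Wit A P i z x m F := ⟨R', ri, rj, o1.2.2.1, d1, o1.2.1, by linarith [o1.1]⟩
    have T : CtxO A P i z x m F := ⟨W, hF, cap, fun D hD => by
      by_contra hc
      exact viol_not_two R'.of k ⟨hn, hD, R'.hx, not_le.1 hc⟩⟩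
    by_cases hb' : Bad A i x m
    · exact o false A P i z x m F ⟨T, by simpa using bad_excl R'.of hn hb'⟩
    · exact o true A P i z x m F ⟨T, by simpa using hb'⟩

/-- `TwoLowNE` from the four cases. -/
theorem twoLowNE_of
    {n1 n2 k1 l1 : ℝ} {a1 a2 a3 a4 : ℝ → ℝ → ℝ} {T1 X1 Y1 T1' X1' Y1' : ℝ → ℝ → ℝ → ℝ → Prop}
    {G1 G1' : ℝ} (p1 : CaseT (CT true) n1 n2 k1 l1 a1 a2 a3 a4 T1 X1 Y1 T1' X1' Y1' G1 G1')
    {n3 n4 k2 l2 : ℝ} {b1 b2 b3 b4 : ℝ → ℝ → ℝ} {T2 X2 Y2 T2' X2' Y2' : ℝ → ℝ → ℝ → ℝ → Prop}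
    {G2 G2' : ℝ} (p2 : CaseT (CT false) n3 n4 k2 l2 b1 b2 b3 b4 T2 X2 Y2 T2' X2' Y2' G2 G2')
    {n5 n6 k3 l3 : ℝ} {c1 c2 c3 c4 : ℝ → ℝ → ℝ} {T3 X3 Y3 T3' X3' Y3' : ℝ → ℝ → ℝ → ℝ → Prop}
    {G3 G3' : ℝ} (p3 : CaseO (CO true) n5 n6 k3 l3 c1 c2 c3 c4 T3 X3 Y3 T3' X3' Y3' G3 G3')
    {n7 n8 k4 l4 : ℝ} {e1 e2 e3 e4 : ℝ → ℝ → ℝ} {T4 X4 Y4 T4' X4' Y4' : ℝ → ℝ → ℝ → ℝ → Prop}
    {G4 G4' : ℝ} (p4 : CaseO (CO false) n7 n8 k4 l4 e1 e2 e3 e4 T4 X4 Y4 T4' X4' Y4' G4 G4') :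
    TwoLowNE := by
  refine ne_cases (fun g A P i j x y C h => ?_) fun g A P i j x y C h => ?_
  · cases g
    · exact p2.sum h h.1.toWit h.1.hC
    · exact p1.sum h h.1.toWit h.1.hC
  · cases g
    · exact p4.sum h h.1.toWit h.1.hC
    · exact p3.sum h h.1.toWit h.1.hC

end Pool.Agent.Helper90.TS
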