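import Pool.Agent.Helper90.TS.NERel
import Pool.Agent.Helper65.TS.PClass

/-!
# `TwoLowNE` in canonical coordinates

Indices: `0` = the class `a` of the witness, `1` = the class `b`, `2` = the row `x` (violated by the
witness), `3` = the row `y`. Variables (names of helper65): `d r`, `u r m` (rows `r = 2, 3`), `w i m`,
`D i m`, `X i m r` (component of the cell `(i; m)` capping `r`), `pr i m` (the cell is present;
an absent cell has `w = D = X = 0`); `mp i`, `md i`, `mu i m` the high main cell of a weak class.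
-/

set_option autoImplicit false

namespace Pool.Agent.Helper90.TS

open Pool.Agent.Helper84.TS Pool.Agent.Helper23.TS Pool.Agent.Helper36.TS Pool.Agent.Helper44.TS
  Pool.Agent.Helper74.TS Pool.Agent.Helper59.TS

/-- the real data -/
structure Cf where
  d : Fin 4 → ℝ
  u : Fin 4 → Fin 4 → ℝ
  w : Fin 4 → Fin 4 → ℝ
  D : Fin 4 → Fin 4 → ℝ
  X : Fin 4 → Fin 4 → Fin 4 → ℝ
  /-- values: of the row classes and of the cells of the weak classes -/
  VR : Fin 4 → ℝ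
  f : Fin 4 → Fin 4 → ℝ
  pr : Fin 4 → Fin 4 → Prop
  mp : Fin 4 → Prop
  md : Fin 4 → ℝ
  mu : Fin 4 → Fin 4 → ℝ
  mf : Fin 4 → ℝ

/-- kind B of the cell `(i; m)` on the row `r`, `z` the fourth index -/
structure Cf.KB (c : Cf) (i m r z : Fin 4) : Prop where
  pr : c.pr i m
  lo : 1 - c.u r i ≤ c.D i m
  cp : c.u r m + c.u r z ≤ c.D i m + c.d r
  vi : 1 - c.X i m r < c.u r m - c.d r

/-- **The relations of a configuration.** -/
structure Cf.Ok (c : Cf) : Prop where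
  -- the rows
  d0 : ∀ r, (r = 2 ∨ r = 3) → 0 ≤ c.d r
  ds : c.d 2 + c.d 3 ≤ 113 / 500
  lo : ∀ r m, (r = 2 ∨ r = 3) → m ≠ r → -(1 - c.d r) ≤ c.u r m
  hi : ∀ r m, (r = 2 ∨ r = 3) → m ≠ r → c.u r m ≤ 1
  us : ∀ r j k l, (r = 2 ∨ r = 3) → [r, j, k, l].Nodup → c.u r j + c.u r k + c.u r l = 1 + c.d r
  /-- the value of a row (helper65's `GR`) -/
  gr : ∀ r j k l, (r = 2 ∨ r = 3) → [r, j, k, l].Nodup →
    Pool.Agent.Helper65.TS.GR (c.VR r) (c.d r) (c.u r j) (c.u r k) (c.u r l)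
  -- the cells of the weak classes
  fd : ∀ i m r z, (i = 0 ∨ i = 1) → [i, m, r, z].Nodup → c.pr i m →
    Fd (c.f i m) (c.w i m) (c.X i m r) (c.X i m z) (c.D i m)
  ab : ∀ i m r, (i = 0 ∨ i = 1) → ¬ c.pr i m → c.f i m = 0 ∧ c.w i m = 0 ∧ c.D i m = 0 ∧ c.X i m r = 0
  -- the high main cell of a weak class
  mn : ∀ i, (i = 0 ∨ i = 1) → c.mp i → 3 / 5 ≤ c.md i ∧ c.md i < 1
  mab : ∀ i, (i = 0 ∨ i = 1) → ¬ c.mp i → c.mf i = 0
  mlo : ∀ i m, (i = 0 ∨ i = 1) → m ≠ i → c.mp i → -(1 - c.md i) ≤ c.mu i m ∧ c.mu i m ≤ 1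
  mus : ∀ i j k l, (i = 0 ∨ i = 1) → [i, j, k, l].Nodup → c.mp i →
    c.mu i j + c.mu i k + c.mu i l = 1 + c.md i ∧ c.mf i = ff (c.md i) (c.mu i j) (c.mu i k) (c.mu i l)
  msat : ∀ i m, (i = 0 ∨ i = 1) → m ≠ i → c.mp i → c.pr i m →
    c.w i m ≤ max (c.md i - c.D i m) 0 - c.mu i m
  -- the pair of the rows: P1, P2, P3, P4 of helper65
  pair : (c.u 3 0 ≤ c.u 2 0 ∧ c.u 2 1 ≤ c.u 3 1 ∧ c.u 3 0 + c.u 2 1 ≤ c.d 2 + c.d 3) ∨
    (c.u 2 0 ≤ c.u 3 0 ∧ c.u 3 1 ≤ c.u 2 1 ∧ c.u 2 0 + c.u 3 1 ≤ c.d 2 + c.d 3) ∨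
    (c.u 3 0 ≤ c.u 2 0 ∧ c.u 3 1 ≤ c.u 2 1 ∧ c.u 3 0 + c.u 3 1 ≤ c.d 2 + c.d 3) ∨
    (c.u 2 0 ≤ c.u 3 0 ∧ c.u 2 1 ≤ c.u 3 1 ∧ c.u 2 0 + c.u 2 1 ≤ c.d 2 + c.d 3)
  -- a cell and a row
  kd : ∀ i m r z, (i = 0 ∨ i = 1) → (r = 2 ∨ r = 3) → [i, m, r, z].Nodup →
    c.u r m - c.d r ≤ 1 - c.X i m r ∨ c.KB i m r z
  /-- a cell violates at most one cap -/
  f1 : ∀ i m r z, (i = 0 ∨ i = 1) → (r = 2 ∨ r = 3) → (z = 2 ∨ z = 3) → [i, m, r, z].Nodup →
    c.KB i m r z → ¬ c.KB i m z r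
  /-- a row violates at most one cap of a class -/
  f2 : ∀ i m r z, (i = 0 ∨ i = 1) → (r = 2 ∨ r = 3) → [i, m, r, z].Nodup →
    c.KB i m r z → ¬ c.KB i z r m
  -- two cells of a class
  sp : ∀ i m n r, (i = 0 ∨ i = 1) → [i, m, n, r].Nodup → c.pr i m → c.pr i n →
    c.X i m r ≤ 1 - c.w i n ∨ c.X i n r ≤ 1 - c.w i m
  -- the two weak classes
  cr : ∀ x y, (x = 2 ∧ y = 3) ∨ (x = 3 ∧ y = 2) → c.pr 0 x → c.pr 1 y → c.X 0 x 1 + c.X 1 y 0 ≤ 2
  cf : ∀ x, (x = 2 ∨ x = 3) → c.pr 0 x → c.pr 1 x →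
    (c.w 0 x ≤ c.w 1 x ∧ c.X 0 x 1 ≤ c.D 1 x - 1 + c.w 1 x) ∨
    (c.w 0 x ≤ c.w 1 x ∧ c.X 1 x 0 ≤ c.D 0 x - 1 + c.w 1 x) ∨
    (c.w 1 x ≤ c.w 0 x ∧ c.X 0 x 1 ≤ c.D 1 x - 1 + c.w 0 x) ∨
    (c.w 1 x ≤ c.w 0 x ∧ c.X 1 x 0 ≤ c.D 0 x - 1 + c.w 0 x)

/-- the value of a configuration -/
noncomputable def Cf.val (c : Cf) : ℝ :=
  c.VR 2 + c.VR 3 + (c.mf 0 + c.f 0 1 + c.f 0 2 + c.f 0 3) + (c.mf 1 + c.f 1 0 + c.f 1 2 + c.f 1 3)

/-- the witness `(0; 1)` -/
structure Cf.WT (c : Cf) : Prop where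
  kb : c.KB 0 1 2 3
  dC : c.D 0 1 < 11 / 20

/-- the witness `(0; 3)` -/
structure Cf.WO (c : Cf) : Prop where
  kb : c.KB 0 3 2 1
  dC : c.D 0 3 < 11 / 20

variable {A : Fin 4 → Fin 4 → Option (Fin 4 → ℝ)} {P : Fin 4 → Fin 4 → ℝ}

/-- the permutation -/
def sg (i j x y : Fin 4) : Fin 4 → Fin 4 := ![i, j, x, y]

theorem sg_inj {i j x y : Fin 4} (hn : [i, j, x, y].Nodup) : Function.Injective (sg i j x y) := by
  revert hn
  revert i j x y
  unfold sg
  decide

theorem sg_nodup {i j x y : Fin 4} (hn : [i, j, x, y].Nodup) {a b c d : Fin 4}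
    (h : [a, b, c, d].Nodup) :
    [sg i j x y a, sg i j x y b, sg i j x y c, sg i j x y d].Nodup := by
  have := List.Nodup.map (sg_inj hn) h
  simpa using this

/-- the fourth index -/
def fth (i m r : Fin 4) : Fin 4 := 2 - i - m - r

theorem fth_eq : ∀ {i m r z : Fin 4}, [i, m, r, z].Nodup → fth i m r = z := by
  decide

open Classical in
/-- the data of `A`, `P` -/
noncomputable def cfOf (A : Fin 4 → Fin 4 → Option (Fin 4 → ℝ)) (P : Fin 4 → Fin 4 → ℝ)
    (i j x y : Fin 4) : Cf where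
  d r := P (sg i j x y r) (sg i j x y r) - 1
  u r m := -P (sg i j x y r) (sg i j x y m)
  w k m := (A (sg i j x y k) (sg i j x y m)).elim 0 fun F => 2 + F (sg i j x y m)
  D k m := (A (sg i j x y k) (sg i j x y m)).elim 0 fun F => F (sg i j x y k) - 1
  X k m r := (A (sg i j x y k) (sg i j x y m)).elim 0 fun F =>
    cmp (sg i j x y k) (sg i j x y (fth k m r)) F
  VR r := VV A (sg i j x y r)
  f k m := fo (sg i j x y k) (A (sg i j x y k) (sg i j x y m))
  pr k m := ∃ F, A (sg i j x y k) (sg i j x y m) = some F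
  mp k := ∃ F, A (sg i j x y k) (sg i j x y k) = some F
  md k := (A (sg i j x y k) (sg i j x y k)).elim 0 fun F => F (sg i j x y k) - 1
  mu k m := (A (sg i j x y k) (sg i j x y k)).elim 0 fun F => -F (sg i j x y m)
  mf k := fo (sg i j x y k) (A (sg i j x y k) (sg i j x y k))

section

variable {i j x y : Fin 4} {k m r : Fin 4} {F : Fin 4 → ℝ}

theorem cfOf_w (h : A (sg i j x y k) (sg i j x y m) = some F) :
    (cfOf A P i j x y).w k m = 2 + F (sg i j x y m) := by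
  simp only [cfOf, h, Option.elim]

theorem cfOf_D (h : A (sg i j x y k) (sg i j x y m) = some F) :
    (cfOf A P i j x y).D k m = F (sg i j x y k) - 1 := by
  simp only [cfOf, h, Option.elim]

theorem cfOf_X (h : A (sg i j x y k) (sg i j x y m) = some F) {z : Fin 4} (hn : [k, m, r, z].Nodup) :
    (cfOf A P i j x y).X k m r = cmp (sg i j x y k) (sg i j x y z) F := by
  simp only [cfOf, h, Option.elim, fth_eq hn]

theorem cfOf_f (h : A (sg i j x y k) (sg i j x y m) = some F) :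
    (cfOf A P i j x y).f k m = fcl (sg i j x y k) F := by
  simp only [cfOf, h, fo]

theorem perm_last : ∀ {a b c d : Fin 4}, [a, b, c, d].Nodup → [a, b, d, c].Nodup := by
  decide

/-- the two descriptions of kind B -/
theorem cfOf_kb {z : Fin 4} (hn : [k, m, r, z].Nodup) (hs : [i, j, x, y].Nodup)
    (hr : A (sg i j x y r) (sg i j x y r) = some (P (sg i j x y r)))
    (h : (cfOf A P i j x y).KB k m r z) :
    ∃ F, Viol A P (sg i j x y k) (sg i j x y m) (sg i j x y r) (sg i j x y z) F := by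
  obtain ⟨F, hF⟩ := h.pr
  refine ⟨F, sg_nodup hs hn, hF, hr, ?_⟩
  have h1 := h.vi
  rw [cfOf_X hF hn] at h1
  unfold cmp at h1
  simp only [cfOf] at h1
  linarith

theorem kb_of {z : Fin 4} (hA : OF A) (hn : [k, m, r, z].Nodup)
    (h : Viol A P (sg i j x y k) (sg i j x y m) (sg i j x y r) (sg i j x y z) F) :
    (cfOf A P i j x y).KB k m r z := by
  obtain ⟨h1, h2, h3⟩ := h.kdB hA
  refine ⟨⟨F, h.hF⟩, ?_, ?_, ?_⟩
  · rw [cfOf_D h.hF]
    simpa only [cfOf] using h1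
  · rw [cfOf_D h.hF]
    simpa only [cfOf] using h2
  · rw [cfOf_X h.hF hn]
    simpa only [cfOf] using h3

end

/-- **The configuration satisfies all the relations.** -/
theorem cfOf_ok {i j x y : Fin 4} (R : Rows A P i j x y) (ri : Helper84.TS.R2 A i)
    (rj : Helper84.TS.R2 A j) : (cfOf A P i j x y).Ok := by
  have hs := R.hn
  have hR : ∀ r, (r = 2 ∨ r = 3) →
      A (sg i j x y r) (sg i j x y r) = some (P (sg i j x y r)) ∧
      P (sg i j x y r) (sg i j x y r) - 1 ≤ 113 / 500 ∧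
      ∀ m H, m ≠ sg i j x y r → A (sg i j x y r) m = some H → 2 + H m ≤ 13 / 20 := by
    rintro r (rfl | rfl)
    · exact ⟨R.hx, by
        show P x x - 1 ≤ 113 / 500
        linarith [R.ds, R.dy], R.wx⟩
    · exact ⟨R.hy, by
        show P y y - 1 ≤ 113 / 500
        linarith [R.ds, R.dx], R.wy⟩
  have hinj := sg_inj hs
  have hW : ∀ k, (k = 0 ∨ k = 1) → Helper84.TS.R2 A (sg i j x y k) := by
    rintro k (rfl | rfl)
    · exact ri
    · exact rj
  have hmain : ∀ k, (k = 0 ∨ k = 1) → (cfOf A P i j x y).mp k →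
      ∃ M, A (sg i j x y k) (sg i j x y k) = some M ∧ 3 / 5 ≤ M (sg i j x y k) - 1 ∧
        (cfOf A P i j x y).md k = M (sg i j x y k) - 1 ∧
        (∀ m, (cfOf A P i j x y).mu k m = -M (sg i j x y m)) ∧
        (cfOf A P i j x y).mf k = fcl (sg i j x y k) M := by
    rintro k hk ⟨M, hM⟩
    refine ⟨M, hM, ?_, by simp only [cfOf, hM, Option.elim], fun m => by
      simp only [cfOf, hM, Option.elim], by simp only [cfOf, hM, fo]⟩
    rcases hW k hk with h0 | ⟨M', hM', hd⟩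
    · rw [hM] at h0
      exact absurd h0 (by simp)
    · rw [hM, Option.some.injEq] at hM'
      rw [hM']
      exact hd
  constructor
  · rintro r (rfl | rfl)
    · exact R.dx
    · exact R.dy
  · exact R.ds
  · intro r m hr hm
    exact (row_entry R.of (hR r hr).1 fun e => hm (hinj e)).1
  · intro r m hr hm
    exact (row_entry R.of (hR r hr).1 fun e => hm (hinj e)).2.1
  · intro r j' k l hr hn
    exact row_sum R.of (sg_nodup hs hn) (hR r hr).1
  · intro r j' k l hr hn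
    exact Pool.Agent.Helper65.TS.gr_of R.of (hR r hr).1 (by linarith [(hR r hr).2.1])
      (sg_nodup hs hn) (hR r hr).2.2
  · rintro k m r z hk hn ⟨F, hF⟩
    have := fdd R.of (sg_nodup hs hn) hF
    rw [cfOf_f hF, cfOf_w hF, cfOf_X hF hn, cfOf_X hF (perm_last hn), cfOf_D hF]
    exact this
  · intro k m r hk hp
    have h0 : A (sg i j x y k) (sg i j x y m) = none := by
      rcases hF : A (sg i j x y k) (sg i j x y m) with _ | F
      · rfl
      · exact absurd ⟨F, hF⟩ hp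
    simp only [cfOf, h0, Option.elim, fo, and_self]
  · intro k hk hp
    obtain ⟨M, hM, h1, h2, h3, h4⟩ := hmain k hk hp
    obtain ⟨a, b, c, hn⟩ := exists_rest3 (sg i j x y k)
    have := cell_lin (R.of.cell _ _ M hM) hn
    rw [h2]
    exact ⟨h1, by linarith⟩
  · intro k hk hp
    have h0 : A (sg i j x y k) (sg i j x y k) = none := by
      rcases hF : A (sg i j x y k) (sg i j x y k) with _ | F
      · rfl
      · exact absurd ⟨F, hF⟩ hp
    simp only [cfOf, h0, fo]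
  · intro k m hk hm hp
    obtain ⟨M, hM, h1, h2, h3, h4⟩ := hmain k hk hp
    have hm' : sg i j x y m ≠ sg i j x y k := fun e => hm (hinj e)
    obtain ⟨a, b, hn⟩ := exists_rest2 (Ne.symm hm')
    obtain ⟨c1, c2, c3, c4, -⟩ := cell_lin (R.of.cell _ _ M hM) hn
    rw [h2, h3]
    exact ⟨by linarith, R.of.main _ M hM _ hm'⟩
  · intro k j' k' l hk hn hp
    obtain ⟨M, hM, h1, h2, h3, h4⟩ := hmain k hk hp
    have hn' := sg_nodup hs hn
    have c1 := (cell_lin (R.of.cell _ _ M hM) hn').1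
    rw [h2, h3, h3, h3, h4]
    exact ⟨by linarith, fcl_eq hn' M⟩
  · rintro k m hk hm hp ⟨F, hF⟩
    obtain ⟨M, hM, h1, h2, h3, h4⟩ := hmain k hk hp
    have hm' : sg i j x y m ≠ sg i j x y k := fun e => hm (hinj e)
    have := supp_main R.of hm' hM hF
    rw [h2, h3, cfOf_w hF, cfOf_D hF]
    linarith
  · exact pair_alt R
  · intro k m r z hk hr hn
    have hn' := sg_nodup hs hn
    rcases hF : A (sg i j x y k) (sg i j x y m) with _ | F
    · left
      have e : (cfOf A P i j x y).X k m r = 0 := by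
        simp only [cfOf, hF, Option.elim]
      have hmr : sg i j x y m ≠ sg i j x y r := by
        intro e
        have := hinj e
        revert this hn
        clear * -
        revert k m r z
        decide
      obtain ⟨-, e2, e3, -⟩ := row_entry R.of (hR r hr).1 hmr
      rw [e]
      simp only [cfOf]
      linarith
    · rcases kd_or R.of hn' hF (hR r hr).1 with h | h
      · left
        rw [cfOf_X hF hn]
        exact h
      · right
        exact kb_of R.of hn h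
  · intro k m r z hk hr hz hn h1 h2
    obtain ⟨F, hF⟩ := cfOf_kb hn hs (hR r hr).1 h1
    obtain ⟨G, hG⟩ := cfOf_kb (perm_last hn) hs (hR z hz).1 h2
    have e : F = G := by
      have := hF.hF
      rw [hG.hF, Option.some.injEq] at this
      exact this.symm
    subst e
    exact viol_not_both R.of hF hG
  · intro k m r z hk hr hn h1 h2
    have hn2 : [k, z, r, m].Nodup := by
      revert hn
      clear * -
      revert k m r z
      decide
    obtain ⟨F, hF⟩ := cfOf_kb hn hs (hR r hr).1 h1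
    obtain ⟨G, hG⟩ := cfOf_kb hn2 hs (hR r hr).1 h2
    exact viol_not_two R.of hF hG
  · rintro k m n r hk hn ⟨F, hF⟩ ⟨G, hG⟩
    have hn2 : [k, m, r, n].Nodup := perm_last hn
    have hn3 : [k, n, r, m].Nodup := by
      revert hn
      clear * -
      revert k m n r
      decide
    rw [cfOf_X hF hn2, cfOf_X hG hn3, cfOf_w hF, cfOf_w hG]
    exact supp R.of (sg_nodup hs hn) hF hG
  · rintro a b (⟨rfl, rfl⟩ | ⟨rfl, rfl⟩) ⟨F, hF⟩ ⟨G, hG⟩
    · rw [cfOf_X hF (z := 3) (by decide), cfOf_X hG (z := 2) (by decide)]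
      exact cross R.of R.hn hF hG
    · rw [cfOf_X hF (z := 2) (by decide), cfOf_X hG (z := 3) (by decide)]
      exact cross R.of R.flip.hn hF hG
  · rintro a (rfl | rfl) ⟨F, hF⟩ ⟨G, hG⟩
    · rw [cfOf_X hF (z := 3) (by decide), cfOf_X hG (z := 3) (by decide), cfOf_w hF, cfOf_w hG,
        cfOf_D hF, cfOf_D hG]
      exact conf_alt R hF hG
    · rw [cfOf_X hF (z := 2) (by decide), cfOf_X hG (z := 2) (by decide), cfOf_w hF, cfOf_w hG,
        cfOf_D hF, cfOf_D hG]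
      exact conf_alt R.flip hF hG

/-- **The value.** -/
theorem cfOf_val {i j x y : Fin 4} (hn : [i, j, x, y].Nodup) :
    ∑ i, VV A i = (cfOf A P i j x y).val := by
  obtain ⟨n1, n2, -, -⟩ := nodup_flip hn
  rw [sum4 hn, Helper44.TS.VV_eq (A := A) hn, Helper44.TS.VV_eq (A := A) n1]
  unfold Cf.val
  simp only [cfOf, show sg i j x y 0 = i from rfl, show sg i j x y 1 = j from rfl,
    show sg i j x y 2 = x from rfl, show sg i j x y 3 = y from rfl]
  ring

theorem cfOf_WT {i j x y : Fin 4} {C : Fin 4 → ℝ} (h : CtxT A P i j x y C) :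
    (cfOf A P i j x y).WT := by
  refine ⟨kb_of h.R.of (F := C) (by decide) ⟨h.R.hn, h.hC, h.R.hx, h.cap⟩, ?_⟩
  rw [cfOf_D (F := C) h.hC]
  exact h.dC

theorem cfOf_WO {i j x y : Fin 4} {C : Fin 4 → ℝ} (h : CtxO A P i j x y C) :
    (cfOf A P i j x y).WO := by
  refine ⟨kb_of h.R.of (F := C) (by decide) ⟨?_, h.hC, h.R.hx, h.cap⟩, ?_⟩
  · exact (nodup_flip h.R.hn).2.2.2
  · rw [cfOf_D (F := C) h.hC]
    exact h.dC

/-- **`TwoLowNE` from the bound for configurations.** -/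
theorem twoLowNE_of_cf (t : ∀ c : Cf, c.Ok → c.WT → c.val ≤ 613 / 200)
    (o : ∀ c : Cf, c.Ok → c.WO → c.val ≤ 613 / 200) : TwoLowNE := by
  refine ne_cases (fun g A P i j x y C h => ?_) fun g A P i j x y C h => ?_
  · rw [cfOf_val (P := P) h.1.R.hn]
    exact t _ (cfOf_ok h.1.R h.1.ri h.1.rj) (cfOf_WT h.1)
  · rw [cfOf_val (P := P) h.1.R.hn]
    exact o _ (cfOf_ok h.1.R h.1.ri h.1.rj) (cfOf_WO h.1)

end Pool.Agent.Helper90.TS
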