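import Pool.Agent.Helper90.TS.NEAsm
import Pool.Agent.Helper59.TS.Conf

/-!
# `TwoLowNE`: the relations of the rows and of the far cells of the weak classes

All relations in terms of the widths `w = 2 + F m`, the heights `F i - 1`, the components
`cmp i z F` (`z` the fourth index: the component capping the row or class `r` of `[i, m, r, z]`), the
entries `-P r m` and the heights `P r r - 1`.
-/

set_option autoImplicit false

namespace Pool.Agent.Helper90.TS

open Pool.Agent.Helper84.TS Pool.Agent.Helper23.TS Pool.Agent.Helper36.TS Pool.Agent.Helper44.TS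
  Pool.Agent.Helper74.TS Pool.Agent.Helper59.TS

variable {A : Fin 4 → Fin 4 → Option (Fin 4 → ℝ)} {P : Fin 4 → Fin 4 → ℝ}

/-! ### one cell -/

/-- the data of any far cell: `a` caps `r`, `b` caps `z` -/
theorem fdd (h : OF A) {i m r z : Fin 4} {F : Fin 4 → ℝ} (hn : [i, m, r, z].Nodup)
    (hF : A i m = some F) :
    Fd (fcl i F) (2 + F m) (cmp i z F) (cmp i r F) (F i - 1) := by
  have hmi : m ≠ i := (nodup_ne hn).1
  have hc := h.cell i m F hF
  have hf := h.far i m F hmi hF
  obtain ⟨b1, b2, b3, b4, b5, b6, b7, b8, b9⟩ := far_bounds hc hn hf.le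
  have k := wk_far hc hn hf
  refine ⟨b1, b2, ?_, ?_, b3, b4, ?_, ?_, ?_, ?_⟩ <;> unfold cmp
  · linarith
  · linarith
  · linarith
  · linarith
  · linarith
  · rw [k.vol, max_eq_right (by linarith : 2 + F m - 1 ≤ 0), vl,
      show F i - 1 - (F z + (F i - 1)) = 2 + F m - (1 - (F r + (F i - 1))) by linarith,
      show F i - 1 - (F r + (F i - 1)) = 2 + F m - (1 - (F z + (F i - 1))) by linarith]
    ring

/-! ### the rows -/

/-- one entry of a row -/
theorem row_entry (h : OF A) {r m : Fin 4} (hr : A r r = some (P r)) (hm : m ≠ r) :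
    -(1 - (P r r - 1)) ≤ -P r m ∧ -P r m ≤ 1 ∧ 0 ≤ P r r - 1 ∧ P r r - 1 < 1 := by
  obtain ⟨i, j, hn⟩ := exists_rest2 (Ne.symm hm)
  obtain ⟨c1, c2, c3, c4, -⟩ := cell_lin (h.cell r r _ hr) hn
  exact ⟨by linarith, h.main r _ hr m hm, by linarith, by linarith⟩

/-- the sum of the entries of a row -/
theorem row_sum (h : OF A) {r j k l : Fin 4} (hn : [r, j, k, l].Nodup) (hr : A r r = some (P r)) :
    -P r j + -P r k + -P r l = 1 + (P r r - 1) := mr_sum h hn hr

/-- **The four alternatives of the pair of rows.** -/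
theorem pair_alt {i j x y : Fin 4} (R : Rows A P i j x y) :
    (-P y i ≤ -P x i ∧ -P x j ≤ -P y j ∧ -P y i + -P x j ≤ (P x x - 1) + (P y y - 1)) ∨
    (-P x i ≤ -P y i ∧ -P y j ≤ -P x j ∧ -P x i + -P y j ≤ (P x x - 1) + (P y y - 1)) ∨
    (-P y i ≤ -P x i ∧ -P y j ≤ -P x j ∧ -P y i + -P y j ≤ (P x x - 1) + (P y y - 1)) ∨
    (-P x i ≤ -P y i ∧ -P x j ≤ -P y j ∧ -P x i + -P x j ≤ (P x x - 1) + (P y y - 1)) := by
  have h := pair_rows (P := P) R.of R.hn R.hx R.hy
  rcases le_total (-P y i) (-P x i) with h1 | h1 <;> rcases le_total (-P x j) (-P y j) with h2 | h2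
  · rw [min_eq_right h1, min_eq_left h2] at h
    exact Or.inl ⟨h1, h2, h⟩
  · rw [min_eq_right h1, min_eq_right h2] at h
    exact Or.inr (Or.inr (Or.inl ⟨h1, h2, h⟩))
  · rw [min_eq_left h1, min_eq_left h2] at h
    exact Or.inr (Or.inr (Or.inr ⟨h1, h2, h⟩))
  · rw [min_eq_left h1, min_eq_right h2] at h
    exact Or.inr (Or.inl ⟨h1, h2, h⟩)

/-! ### a cell and a row -/

/-- kind A of the cell `(i; m)` on the row `r` -/
def KdA (P : Fin 4 → Fin 4 → ℝ) (i m r z : Fin 4) (F : Fin 4 → ℝ) : Prop :=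
  -P r m - (P r r - 1) ≤ 1 - cmp i z F

/-- kind B of the cell `(i; m)` on the row `r` -/
def KdB (P : Fin 4 → Fin 4 → ℝ) (i m r z : Fin 4) (F : Fin 4 → ℝ) : Prop :=
  1 - -P r i ≤ F i - 1 ∧ -P r m + -P r z ≤ (F i - 1) + (P r r - 1) ∧
    1 - cmp i z F < -P r m - (P r r - 1)

theorem kdA_iff {i m r z : Fin 4} {F : Fin 4 → ℝ} :
    KdA P i m r z F ↔ -P r m ≤ (F z + (F i - 1)) + (P r r - 1) := by
  unfold KdA cmp
  constructor <;> intro h <;> linarith

/-- a violated cap is kind B -/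
theorem Viol.kdB (h : OF A) {i m r z : Fin 4} {F : Fin 4 → ℝ} (k : Viol A P i m r z F) :
    KdB P i m r z F := by
  obtain ⟨h1, h2, -, -⟩ := k.out h
  have h3 := k.cap
  refine ⟨by linarith, h1, ?_⟩
  unfold cmp
  linarith

/-- every far cell and every row: kind A or kind B -/
theorem kd_or (_h : OF A) {i m r z : Fin 4} {F : Fin 4 → ℝ} (hn : [i, m, r, z].Nodup)
    (hF : A i m = some F) (hr : A r r = some (P r)) : KdA P i m r z F ∨ Viol A P i m r z F := by
  by_cases hc : -P r m ≤ (F z + (F i - 1)) + (P r r - 1)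
  · exact Or.inl (kdA_iff.2 hc)
  · exact Or.inr ⟨hn, hF, hr, not_le.1 hc⟩

/-! ### two cells of one class -/

/-- **Support**: `F = (i; m)`, `G = (i; n)`, `r` the fourth index; the components capping `r`. -/
theorem supp (h : OF A) {i m n r : Fin 4} {F G : Fin 4 → ℝ} (hn : [i, m, n, r].Nodup)
    (hF : A i m = some F) (hG : A i n = some G) :
    cmp i n F ≤ 1 - (2 + G n) ∨ cmp i m G ≤ 1 - (2 + F m) := by
  have n1 := nodup_ne hn
  have hmn : m ≠ n := by
    clear * - hn; revert hn; revert i m n r; decide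
  unfold cmp
  rcases Pool.Agent.Helper5.TS.support h hF hG n1.1 n1.2.1 hmn with h1 | h1
  · left; linarith
  · right; linarith

/-- a main cell `M = (i; i)` and a far cell `F = (i; m)` -/
theorem supp_main (h : OF A) {i m : Fin 4} {M F : Fin 4 → ℝ} (hm : m ≠ i) (hM : A i i = some M)
    (hF : A i m = some F) : 2 + F m ≤ M m + max ((M i - 1) - (F i - 1)) 0 := by
  have := own_main h hM hF hm
  linarith

/-! ### two cells of the two weak classes -/

/-- **Cross relation**: `F = (i; x)`, `G = (j; y)`. -/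
theorem cross (h : OF A) {i j x y : Fin 4} {F G : Fin 4 → ℝ} (hn : [i, j, x, y].Nodup)
    (hF : A i x = some F) (hG : A j y = some G) : cmp i y F + cmp j x G ≤ 2 := by
  have hxi : x ≠ i := (nodup_ne hn).2.1
  have hyj : y ≠ j := by
    clear * - hn; revert hn; revert i j x y; decide
  have hij : i ≠ j := by
    clear * - hn; revert hn; revert i j x y; decide
  have n1 : [i, x, j, y].Nodup := by
    clear * - hn; revert hn; revert i j x y; decide
  have n2 : [j, y, i, x].Nodup := by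
    clear * - hn; revert hn; revert i j x y; decide
  have hs : Sep F G := sep_of h hF hG hij
  have h3 := (sep_min (h.cell i x F hF) (h.cell j y G hG) hn).1 hs
  have f1 := h.far i x F hxi hF
  have f2 := h.far j y G hyj hG
  have d1 := fdd h n1 hF
  have d2 := fdd h n2 hG
  have e1 := d1.al
  have e2 := d1.bl
  have e3 := d2.al
  have e4 := d2.bl
  have w1 := d1.w1
  have w2 := d2.w1
  unfold cmp at e1 e2 e3 e4 ⊢
  rw [min_eq_right (by linarith : -G x ≤ -F x), min_eq_left (by linarith : -F y ≤ -G y)] at h3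
  linarith

/-- **Conflict** in the column `x`, `F = (i; x)`, `G = (j; x)`; the four alternatives. -/
theorem conf_alt {i j x y : Fin 4} (R : Rows A P i j x y) {F G : Fin 4 → ℝ} (hF : A i x = some F)
    (hG : A j x = some G) :
    (2 + F x ≤ 2 + G x ∧ cmp i y F ≤ (G j - 1) - 1 + (2 + G x)) ∨
    (2 + F x ≤ 2 + G x ∧ cmp j y G ≤ (F i - 1) - 1 + (2 + G x)) ∨
    (2 + G x ≤ 2 + F x ∧ cmp i y F ≤ (G j - 1) - 1 + (2 + F x)) ∨
    (2 + G x ≤ 2 + F x ∧ cmp j y G ≤ (F i - 1) - 1 + (2 + F x)) := by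
  have h := conf_rel R hF hG
  rcases le_total (2 + F x) (2 + G x) with h1 | h1
  · rw [max_eq_right h1] at h
    rcases h with h | h
    · exact Or.inl ⟨h1, h⟩
    · exact Or.inr (Or.inl ⟨h1, h⟩)
  · rw [max_eq_left h1] at h
    rcases h with h | h
    · exact Or.inr (Or.inr (Or.inl ⟨h1, h⟩))
    · exact Or.inr (Or.inr (Or.inr ⟨h1, h⟩))

end Pool.Agent.Helper90.TS
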